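import Pool.Agent.MP_e70dc0_co.T53.Defs

namespace Pool.Agent.T53

open Finset Filter Topology

theorem aff_row : AFF_s := by
  classical
  intro Q K ε z s hK hs
  have hs0 : (s : ℂ) ≠ 0 := by exact_mod_cast hs.ne'
  set g : ℂ → ℂ := fun x => (x - z) / (s : ℂ) with hg
  have ginj : Function.Injective g := by
    intro x y hxy
    have h1 : (x - z) / (s : ℂ) = (y - z) / (s : ℂ) := hxy
    have h2 : x - z = y - z := by
      have h3 := congrArg (fun u => u * (s : ℂ)) h1
      simpa [div_mul_cancel₀ _ hs0] using h3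
    exact sub_left_injective h2
  have gd : ∀ x y : ℂ, dist (g x) (g y) = dist x y / s := by
    intro x y
    have h1 : g x - g y = (x - y) / (s : ℂ) := by
      simp only [hg]; ring
    rw [dist_eq_norm, dist_eq_norm, h1, norm_div, Complex.norm_real, Real.norm_of_nonneg hs.le]
  set G : K4 → K4 := fun k => (g k.1, g k.2.1, g k.2.2.1, g k.2.2.2) with hG
  have Ginj : Function.Injective G := by
    rintro ⟨a, b, c, d⟩ ⟨a', b', c', d'⟩ h
    simp only [hG, Prod.mk.injEq] at h
    obtain ⟨h1, h2, h3, h4⟩ := h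
    rw [ginj h1, ginj h2, ginj h3, ginj h4]
  have hpr : ∀ (i : Fin 6) (k : K4), pr i (G k) = (g (pr i k).1, g (pr i k).2) := by
    intro i k
    fin_cases i <;> rfl
  refine ⟨K.image G, ⟨hK.ne.image _, ?_, ?_, ?_, ?_⟩⟩
  · intro k hk
    obtain ⟨k', hk', rfl⟩ := mem_image.1 hk
    obtain ⟨h1, h2, h3, h4⟩ := hK.mem k' hk'
    exact ⟨mem_image_of_mem _ h1, mem_image_of_mem _ h2, mem_image_of_mem _ h3,
      mem_image_of_mem _ h4⟩
  · intro k hk
    obtain ⟨k', hk', rfl⟩ := mem_image.1 hk
    obtain ⟨h1, h2, h3, h4⟩ := hK.kite k' hk'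
    refine ⟨fun h => h1 (ginj h), fun h => h2 (ginj h), ?_, ?_⟩
    · show dist (g k'.1) (g k'.2.2.1) = dist (g k'.1) (g k'.2.2.2)
      rw [gd, gd, h3]
    · show dist (g k'.1) (g k'.2.1) = dist (g k'.1) (g k'.2.2.1)
      rw [gd, gd, h4]
  · intro i e
    have hsub : {k ∈ K.image G | pr i k = e} ⊆
        ({k ∈ K | pr i k = (e.1 * s + z, e.2 * s + z)} : Finset K4).image G := by
      intro k hk
      obtain ⟨hk1, hk2⟩ := mem_filter.1 hk
      obtain ⟨k', hk', rfl⟩ := mem_image.1 hk1
      refine mem_image_of_mem _ (mem_filter.2 ⟨hk', ?_⟩)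
      rw [hpr] at hk2
      have e1 : g (pr i k').1 = e.1 := congrArg Prod.fst hk2
      have e2 : g (pr i k').2 = e.2 := congrArg Prod.snd hk2
      have inv : ∀ x : ℂ, g x * s + z = x := by
        intro x
        simp only [hg]
        rw [div_mul_cancel₀ _ hs0]; ring
      rw [← e1, ← e2, inv, inv]
    exact (card_le_card hsub).trans (card_image_le.trans (hK.fib i _))
  · rw [card_image_of_injective _ ginj, card_image_of_injective _ Ginj]
    exact hK.big

end Pool.Agent.T53
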