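import Pool.Agent.MP_e70dc0_co.T53.Defs

namespace Pool.Agent.T53

open Finset Filter Topology

lemma app_mem {Q : Finset ℂ} {K : Finset K4} {ε : ℝ} (h : KS Q K ε) (i : Fin 6) :
    ∀ k ∈ K, pr i k ∈ Q ×ˢ Q := by
  intro k hk
  obtain ⟨h1, h2, h3, h4⟩ := h.mem k hk
  fin_cases i <;> simp [pr, h1, h2, h3, h4]

lemma app_arith (A B D N κ ε M : ℝ) (hN : 0 < N) (hM : 0 ≤ M) (hε1 : ε ≤ 1)
    (h1 : (2 - ε) * N ≤ κ) (h2 : κ ≤ 2 * N) (hA : A = 2 * B - D) (hB : |B| ≤ M * N)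
    (hD : |D| ≤ M * (2 * N - κ)) : |A / κ - B / N| ≤ 2 * ε * M := by
  have hκN : N ≤ κ := by nlinarith
  have hκ : 0 < κ := lt_of_lt_of_le hN hκN
  have e : A / κ - B / N = ((2 * N - κ) * B - N * D) / (κ * N) := by
    rw [hA]
    field_simp
    ring
  have g0 : 0 ≤ 2 * N - κ := by linarith
  have g1 : 2 * N - κ ≤ ε * N := by linarith
  have hε : 0 ≤ ε := by
    by_contra hc
    have : ε * N < 0 := mul_neg_of_neg_of_pos (not_le.1 hc) hN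
    linarith
  have g2 : |(2 * N - κ) * B| ≤ (2 * N - κ) * (M * N) := by
    rw [abs_mul, abs_of_nonneg g0]
    exact mul_le_mul_of_nonneg_left hB g0
  have g3 : |N * D| ≤ N * (M * (2 * N - κ)) := by
    rw [abs_mul, abs_of_pos hN]
    exact mul_le_mul_of_nonneg_left hD hN.le
  have g4 : 2 * N - κ ≤ ε * κ := g1.trans (mul_le_mul_of_nonneg_left hκN hε)
  rw [e, abs_div, abs_of_pos (mul_pos hκ hN), div_le_iff₀ (mul_pos hκ hN)]
  calc |(2 * N - κ) * B - N * D| ≤ |(2 * N - κ) * B| + |N * D| := abs_sub _ _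
    _ ≤ (2 * N - κ) * (M * N) + N * (M * (2 * N - κ)) := add_le_add g2 g3
    _ = 2 * (M * N) * (2 * N - κ) := by ring
    _ ≤ 2 * (M * N) * (ε * κ) := mul_le_mul_of_nonneg_left g4 (by positivity)
    _ = 2 * ε * M * (κ * N) := by ring

theorem app_row : APP_s := by
  classical
  intro Q K ε M i φ h _ hε1 hφ
  have hφ' : ∀ e ∈ Q ×ˢ Q, |φ e| ≤ M := fun e he =>
    hφ e.1 (mem_product.1 he).1 e.2 (mem_product.1 he).2
  obtain ⟨x0, hx0⟩ := h.ne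
  have hM : 0 ≤ M := (abs_nonneg _).trans (hφ x0 hx0 x0 hx0)
  have hn : (0 : ℝ) < #Q := by exact_mod_cast card_pos.2 ⟨x0, hx0⟩
  have hc : ((#(Q ×ˢ Q) : ℕ) : ℝ) = (#Q : ℝ) ^ 2 := by
    rw [card_product]
    push_cast
    ring
  have hf : ∀ e : ℂ × ℂ, ((#{k ∈ K | pr i k = e} : ℕ) : ℝ) ≤ 2 := fun e => by
    exact_mod_cast h.fib i e
  have hκ : (#K : ℝ) = ∑ e ∈ Q ×ˢ Q, ((#{k ∈ K | pr i k = e} : ℕ) : ℝ) := by
    exact_mod_cast card_eq_sum_card_fiberwise (fun k hk => mem_coe.2 (app_mem h i k (mem_coe.1 hk)))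
  have hA : ∑ k ∈ K, φ (pr i k) = ∑ e ∈ Q ×ˢ Q, ((#{k ∈ K | pr i k = e} : ℕ) : ℝ) * φ e := by
    rw [← sum_fiberwise_of_maps_to (app_mem h i)]
    refine sum_congr rfl fun e _ => ?_
    rw [sum_congr rfl (g := fun _ => φ e) fun k hk => by rw [(mem_filter.1 hk).2], sum_const,
      nsmul_eq_mul]
  have hs : ∑ e ∈ Q ×ˢ Q, (2 - ((#{k ∈ K | pr i k = e} : ℕ) : ℝ)) = 2 * (#Q : ℝ) ^ 2 - #K := by
    rw [sum_sub_distrib, sum_const, nsmul_eq_mul, hc, hκ]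
    ring
  have hs0 : 0 ≤ ∑ e ∈ Q ×ˢ Q, (2 - ((#{k ∈ K | pr i k = e} : ℕ) : ℝ)) :=
    sum_nonneg fun e _ => sub_nonneg.2 (hf e)
  refine app_arith _ _ (∑ e ∈ Q ×ˢ Q, (2 - ((#{k ∈ K | pr i k = e} : ℕ) : ℝ)) * φ e) _ _ ε M
    (by positivity) hM hε1 h.big (by linarith) ?_ ?_ ?_
  · rw [hA, mul_sum, ← sum_sub_distrib]
    exact sum_congr rfl fun e _ => by ring
  · refine (abs_sum_le_sum_abs _ _).trans ((sum_le_sum hφ').trans_eq ?_)
    rw [sum_const, nsmul_eq_mul, hc, mul_comm]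
  · rw [← hs, mul_sum]
    refine (abs_sum_le_sum_abs _ _).trans (sum_le_sum fun e he => ?_)
    rw [abs_mul, abs_of_nonneg (sub_nonneg.2 (hf e)), mul_comm]
    exact mul_le_mul_of_nonneg_right (hφ' e he) (sub_nonneg.2 (hf e))

end Pool.Agent.T53
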