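import Pool.Agent.MP_e70dc0_co.T53.Defs

namespace Pool.Agent.T53

open Finset Filter Topology MeasureTheory

theorem cnt_sq {x p q : ℂ} (h : dist x p = dist x q) :
    (x.re - p.re) ^ 2 + (x.im - p.im) ^ 2 = (x.re - q.re) ^ 2 + (x.im - q.im) ^ 2 := by
  rw [Complex.dist_eq_re_im, Complex.dist_eq_re_im] at h
  exact (Real.sqrt_inj (by positivity) (by positivity)).1 h

theorem cnt_col {x y z p q : ℂ} (h : p ≠ q) (hx : dist x p = dist x q) (hy : dist y p = dist y q)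
    (hz : dist z p = dist z q) : Collinear ℝ {x, y, z} := by
  have h0 : (p.re - q.re) ^ 2 + (p.im - q.im) ^ 2 ≠ 0 := by
    intro e
    apply h
    apply Complex.ext <;> nlinarith [sq_nonneg (p.re - q.re), sq_nonneg (p.im - q.im)]
  have key : ∀ u : ℂ, dist u p = dist u q →
      ∃ r : ℝ, u = r • (⟨-(p.im - q.im), p.re - q.re⟩ : ℂ) +ᵥ x := by
    intro u hu'
    have hu : (u.re - x.re) * (p.re - q.re) + (u.im - x.im) * (p.im - q.im) = 0 := by
      linear_combination (cnt_sq hx - cnt_sq hu') / 2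
    refine ⟨((u.im - x.im) * (p.re - q.re) - (u.re - x.re) * (p.im - q.im)) /
      ((p.re - q.re) ^ 2 + (p.im - q.im) ^ 2), ?_⟩
    apply Complex.ext
    · simp only [vadd_eq_add, Complex.add_re, Complex.smul_re, smul_eq_mul]
      field_simp
      linear_combination (p.re - q.re) * hu
    · simp only [vadd_eq_add, Complex.add_im, Complex.smul_im, smul_eq_mul]
      field_simp
      linear_combination (p.im - q.im) * hu
  rw [collinear_iff_of_mem (p₀ := x) (by simp)]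
  refine ⟨⟨-(p.im - q.im), p.re - q.re⟩, fun u hu => ?_⟩
  rcases hu with rfl | rfl | rfl
  · exact key _ hx
  · exact key _ hy
  · exact key _ hz

theorem cnt_apex {P : Finset ℂ} (hP : GP P) {p q : ℂ} (h : p ≠ q) :
    #{a ∈ P | dist a p = dist a q} ≤ 2 := by
  by_contra hn
  obtain ⟨x, hx, y, hy, z, hz, h1, h2, h3⟩ := two_lt_card.1 (not_le.1 hn)
  rw [mem_filter] at hx hy hz
  exact hP x hx.1 y hy.1 z hz.1 h1 h2 h3 (cnt_col h hx.2 hy.2 hz.2)

theorem cnt_off {α : Type} [DecidableEq α] (S : Finset α) :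
    (#S.offDiag : ℝ) = (#S : ℝ) * #S - #S := by
  rw [offDiag_card, Nat.cast_sub (Nat.le_mul_self _), Nat.cast_mul]

/-- Ordered triples of distinct points of a set with three points. -/
noncomputable def cnt_T (S : Finset ℂ) : Finset (ℂ × ℂ × ℂ) :=
  {k ∈ S ×ˢ S ×ˢ S | k.1 ≠ k.2.1 ∧ k.1 ≠ k.2.2 ∧ k.2.1 ≠ k.2.2 ∧ #S = 3}

theorem cnt_six (S : Finset ℂ) : 6 * (5 * (#S : ℝ) - (#S * #S - #S) - 8) ≤ #(cnt_T S) := by
  by_cases h : #S = 3
  · obtain ⟨x, y, z, h1, h2, h3, rfl⟩ := card_eq_three.1 h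
    have h6 : ({(x, y, z), (x, z, y), (y, x, z), (y, z, x), (z, x, y), (z, y, x)} :
        Finset (ℂ × ℂ × ℂ)) ⊆ cnt_T {x, y, z} := by
      intro k hk
      simp only [mem_insert, mem_singleton] at hk
      unfold cnt_T
      rcases hk with rfl | rfl | rfl | rfl | rfl | rfl <;>
        simp [h, h1, h2, h3, h1.symm, h2.symm, h3.symm]
    have h7 : #({(x, y, z), (x, z, y), (y, x, z), (y, z, x), (z, x, y), (z, y, x)} :
        Finset (ℂ × ℂ × ℂ)) = 6 := by
      rw [card_insert_of_notMem, card_insert_of_notMem, card_insert_of_notMem,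
        card_insert_of_notMem, card_insert_of_notMem, card_singleton] <;>
        simp [h1, h2, h3, h1.symm, h2.symm, h3.symm]
    have h8 : (6 : ℝ) ≤ #(cnt_T {x, y, z}) := by exact_mod_cast h7 ▸ card_le_card h6
    rw [h]
    push_cast
    linarith
  · have h0 : (0 : ℝ) ≤ #(cnt_T S) := Nat.cast_nonneg _
    rcases lt_or_gt_of_ne h with h' | h'
    · have h1 : (#S : ℝ) ≤ 2 := by exact_mod_cast Nat.le_of_lt_succ h'
      nlinarith
    · have h1 : (4 : ℝ) ≤ #S := by exact_mod_cast h'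
      nlinarith

theorem cnt_pairs (S : Finset ℂ) (f : ℂ → ℝ) : #{p ∈ S.offDiag | f p.1 = f p.2} =
    ∑ r ∈ S.image f, #({a ∈ S | f a = r} : Finset ℂ).offDiag := by
  rw [card_eq_sum_card_fiberwise (f := fun p : ℂ × ℂ => f p.1) (t := S.image f)
    (fun p hp => by
      have hp' := (mem_offDiag.1 (mem_filter.1 (mem_coe.1 hp)).1).1
      exact mem_coe.2 (mem_image_of_mem f hp'))]
  refine sum_congr rfl fun r _ => congrArg card ?_
  ext p
  simp only [mem_filter, mem_offDiag]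
  constructor
  · rintro ⟨⟨⟨a, b, c⟩, d⟩, e⟩
    exact ⟨⟨a, e⟩, ⟨b, d ▸ e⟩, c⟩
  · rintro ⟨⟨a, e⟩, ⟨b, d⟩, c⟩
    exact ⟨⟨⟨a, b, c⟩, e.trans d.symm⟩, e⟩

theorem cnt_cls (S : Finset ℂ) (f : ℂ → ℝ) :
    6 * (5 * (#S : ℝ) - #{p ∈ S.offDiag | f p.1 = f p.2} - 8 * #(S.image f)) ≤
      ∑ r ∈ S.image f, (#(cnt_T {a ∈ S | f a = r}) : ℝ) := by
  have h2 : (#S : ℝ) = ∑ r ∈ S.image f, (#{a ∈ S | f a = r} : ℝ) := by
    exact_mod_cast card_eq_sum_card_image f S
  rw [cnt_pairs, h2, Nat.cast_sum, mul_sum, mul_comm (8 : ℝ), ← nsmul_eq_mul, ← sum_const,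
    ← sum_sub_distrib, ← sum_sub_distrib, mul_sum]
  exact sum_le_sum fun r _ => by rw [cnt_off]; exact cnt_six _

theorem cnt_kt (P : Finset ℂ) :
    ∑ a ∈ P, ∑ r ∈ (P.erase a).image (dist a), #(cnt_T {x ∈ P.erase a | dist a x = r}) ≤
      #(KT P) := by
  simp only [← card_sigma]
  refine card_le_card_of_injOn (fun x => (x.1, x.2.2)) ?_ ?_
  · rintro ⟨a, r, x, y, z⟩ hx
    have hx' := mem_coe.1 hx
    simp only [mem_sigma, cnt_T, mem_filter, mem_product, mem_erase] at hx'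
    obtain ⟨ha, -, ⟨⟨⟨x1, x2⟩, x3⟩, ⟨⟨-, y2⟩, y3⟩, ⟨-, z2⟩, z3⟩, h1, h2, h3, h4⟩ := hx'
    refine mem_coe.2 ?_
    unfold KT
    simp only [mem_filter, mem_product]
    refine ⟨⟨ha, x2, y2, z2⟩, ⟨x1.symm, h3, y3.trans z3.symm, x3.trans y3.symm⟩, h1, h2, ?_⟩
    rw [← h4]
    refine congrArg card ?_
    ext u
    simp only [mem_filter, mem_erase, x3]
    refine ⟨fun k => ⟨⟨?_, k.1⟩, k.2⟩, fun k => ⟨k.1.2, k.2⟩⟩
    rintro rfl
    exact x1 (dist_eq_zero.1 (by rw [x3, ← k.2, dist_self])).symm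
  · rintro ⟨a, r, k⟩ hx ⟨a', r', k'⟩ hx' h
    simp only [Prod.mk.injEq] at h
    obtain ⟨rfl, rfl⟩ := h
    have e1 := mem_coe.1 hx
    have e2 := mem_coe.1 hx'
    simp only [mem_sigma, cnt_T, mem_filter, mem_product, mem_erase] at e1 e2
    have e : r = r' := e1.2.2.1.1.2.symm.trans e2.2.2.1.1.2
    subst e
    rfl

theorem cnt_row : CNT_s := by
  intro P c hG hP
  have h1 : ∀ a ∈ P, 6 * (5 * ((#P : ℝ) - 1) - #{e ∈ P.offDiag | dist a e.1 = dist a e.2} -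
      8 * #((P.erase a).image (dist a))) ≤ ∑ r ∈ (P.erase a).image (dist a),
        (#(cnt_T {x ∈ P.erase a | dist a x = r}) : ℝ) := by
    intro a ha
    have h := cnt_cls (P.erase a) (dist a)
    have hc : (#(P.erase a) : ℝ) = #P - 1 := by
      rw [card_erase_of_mem ha, Nat.cast_sub (card_pos.2 ⟨a, ha⟩), Nat.cast_one]
    rw [hc] at h
    have h' : (#{e ∈ (P.erase a).offDiag | dist a e.1 = dist a e.2} : ℝ) ≤
        #{e ∈ P.offDiag | dist a e.1 = dist a e.2} := by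
      exact_mod_cast card_le_card (filter_subset_filter _ (offDiag_mono (erase_subset a P)))
    linarith
  have h2 : ∑ a ∈ P, (#{e ∈ P.offDiag | dist a e.1 = dist a e.2} : ℝ) =
      ∑ e ∈ P.offDiag, (#{a ∈ P | dist a e.1 = dist a e.2} : ℝ) := by
    simp only [card_filter, Nat.cast_sum]
    exact sum_comm
  have h3 := sum_le_sum h1
  rw [← mul_sum, sum_sub_distrib, sum_sub_distrib, h2, sum_const, nsmul_eq_mul, ← mul_sum] at h3
  have h4 : ∑ e ∈ P.offDiag, (#{a ∈ P | dist a e.1 = dist a e.2} : ℝ) ≤ ∑ _e ∈ P.offDiag, (2 : ℝ) :=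
    sum_le_sum fun e he => by exact_mod_cast cnt_apex hG (mem_offDiag.1 he).2.2
  rw [sum_const, nsmul_eq_mul, cnt_off] at h4
  have h5 : ∑ a ∈ P, ∑ r ∈ (P.erase a).image (dist a),
      (#(cnt_T {x ∈ P.erase a | dist a x = r}) : ℝ) ≤ #(KT P) := by exact_mod_cast cnt_kt P
  nlinarith

end Pool.Agent.T53
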