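import Pool.Agent.MP_e70dc0_co.T53.Defs

namespace Pool.Agent.T53

open Finset Filter Topology

theorem cut_fib {Q : Finset ℂ} {K : Finset K4} {ε : ℝ} (hK : KS Q K ε) (i : Fin 6)
    (T : Finset (ℂ × ℂ)) (S : Finset K4) (hS : S ⊆ K) (hT : ∀ k ∈ S, pr i k ∈ T) :
    #S ≤ 2 * #T := by
  classical
  refine card_le_mul_card_image_of_maps_to hT 2 ?_
  intro b _
  refine le_trans (card_le_card ?_) (hK.fib i b)
  intro k hk
  obtain ⟨h1, h2⟩ := mem_filter.1 hk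
  exact mem_filter.2 ⟨hS h1, h2⟩

theorem cut_row : CUT_s := by
  classical
  intro Q Q' K ε δ hK hsub hne hcard
  set K' : Finset K4 := {k ∈ K | k.1 ∈ Q' ∧ k.2.1 ∈ Q' ∧ k.2.2.1 ∈ Q' ∧ k.2.2.2 ∈ Q'} with hK'
  set D : Finset ℂ := Q \ Q' with hD
  set S1 : Finset K4 := {k ∈ K | k.1 ∉ Q'} with hS1
  set S2 : Finset K4 := {k ∈ K | k.2.1 ∉ Q'} with hS2
  set S3 : Finset K4 := {k ∈ K | k.2.2.1 ∉ Q'} with hS3
  set S4 : Finset K4 := {k ∈ K | k.2.2.2 ∉ Q'} with hS4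
  have b1 : #S1 ≤ 2 * #(D ×ˢ Q) := by
    refine cut_fib hK 0 _ _ (filter_subset _ _) ?_
    intro k hk
    obtain ⟨h1, h2⟩ := mem_filter.1 hk
    obtain ⟨m1, m2, m3, m4⟩ := hK.mem k h1
    exact mem_product.2 ⟨mem_sdiff.2 ⟨m1, h2⟩, m2⟩
  have b2 : #S2 ≤ 2 * #(Q ×ˢ D) := by
    refine cut_fib hK 0 _ _ (filter_subset _ _) ?_
    intro k hk
    obtain ⟨h1, h2⟩ := mem_filter.1 hk
    obtain ⟨m1, m2, m3, m4⟩ := hK.mem k h1
    exact mem_product.2 ⟨m1, mem_sdiff.2 ⟨m2, h2⟩⟩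
  have b3 : #S3 ≤ 2 * #(D ×ˢ Q) := by
    refine cut_fib hK 1 _ _ (filter_subset _ _) ?_
    intro k hk
    obtain ⟨h1, h2⟩ := mem_filter.1 hk
    obtain ⟨m1, m2, m3, m4⟩ := hK.mem k h1
    exact mem_product.2 ⟨mem_sdiff.2 ⟨m3, h2⟩, m4⟩
  have b4 : #S4 ≤ 2 * #(Q ×ˢ D) := by
    refine cut_fib hK 1 _ _ (filter_subset _ _) ?_
    intro k hk
    obtain ⟨h1, h2⟩ := mem_filter.1 hk
    obtain ⟨m1, m2, m3, m4⟩ := hK.mem k h1
    exact mem_product.2 ⟨m3, mem_sdiff.2 ⟨m4, h2⟩⟩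
  have hcov : K ⊆ K' ∪ (S1 ∪ (S2 ∪ (S3 ∪ S4))) := by
    intro k hk
    simp only [hK', hS1, hS2, hS3, hS4, mem_union, mem_filter]
    tauto
  have hc : #K ≤ #K' + (#S1 + (#S2 + (#S3 + #S4))) := by
    refine (card_le_card hcov).trans ((card_union_le _ _).trans (Nat.add_le_add_left ?_ _))
    refine (card_union_le _ _).trans (Nat.add_le_add_left ?_ _)
    refine (card_union_le _ _).trans (Nat.add_le_add_left ?_ _)
    exact card_union_le _ _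
  rw [card_product] at b1 b2 b3 b4
  have hc2 : #K ≤ #K' + 8 * (#D * #Q) := by
    have : #Q * #D = #D * #Q := Nat.mul_comm _ _
    omega
  have hc3 : (#K : ℝ) ≤ #K' + 8 * (#D * #Q) := by exact_mod_cast hc2
  have hDc : (#D : ℝ) + #Q' = #Q := by
    have : #D + #Q' = #Q := card_sdiff_add_card_eq_card hsub
    exact_mod_cast this
  have hQ0 : (0 : ℝ) ≤ #Q := Nat.cast_nonneg _
  have hQ'0 : (0 : ℝ) ≤ #Q' := Nat.cast_nonneg _
  have hD0 : (0 : ℝ) ≤ #D := Nat.cast_nonneg _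
  have hK0 : (0 : ℝ) ≤ #K' := Nat.cast_nonneg _
  have hDδ : (#D : ℝ) ≤ δ * #Q := by linarith
  have hDQ : (#D : ℝ) * #Q ≤ δ * #Q * #Q := mul_le_mul_of_nonneg_right hDδ hQ0
  have hbig := hK.big
  have h1 : (2 - (ε + 8 * δ)) * (#Q : ℝ) ^ 2 ≤ #K' := by nlinarith
  refine ⟨K', ⟨hne, ?_, ?_, ?_, ?_⟩⟩
  · intro k hk
    exact (mem_filter.1 hk).2
  · intro k hk
    exact hK.kite k (mem_filter.1 hk).1
  · intro i e
    refine le_trans (card_le_card ?_) (hK.fib i e)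
    intro k hk
    obtain ⟨h2, h3⟩ := mem_filter.1 hk
    exact mem_filter.2 ⟨(mem_filter.1 h2).1, h3⟩
  · rcases le_total 0 (2 - (ε + 8 * δ)) with h | h
    · have h2 : (#Q' : ℝ) ^ 2 ≤ (#Q : ℝ) ^ 2 := by nlinarith
      exact (mul_le_mul_of_nonneg_left h2 h).trans h1
    · exact (mul_nonpos_of_nonpos_of_nonneg h (sq_nonneg _)).trans hK0

end Pool.Agent.T53
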