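import Pool.Agent.MP_e70dc0_co.T53.Defs

namespace Pool.Agent.T53

open Finset Filter Topology MeasureTheory

theorem dg_row (hFO : FO_s) (hLOC : LOC_s) : DG_s := by
  intro μ t hμ hP u a ha
  have := hμ.prob
  have c1 : Continuous fun a : ℂ => ip μ (lin u) (sf a) :=
    cpi μ (F := fun a b => lin u b * sf a b) (by
      unfold Function.uncurry lin sf rho; fun_prop)
  have c2 : Continuous fun a : ℂ => wf μ a :=
    cpi μ (F := fun a b => sf a b * sf a b) (by
      unfold Function.uncurry sf rho; fun_prop)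
  have c3 : Continuous fun e : ℂ × ℂ => sf e.1 e.2 := by unfold sf rho; fun_prop
  have c4 : Continuous fun e : ℂ × ℂ => lin u e.2 := by unfold lin; fun_prop
  have h := hLOC μ (fun e => lin u e.2 - ip μ (lin u) (sf e.1) * sf e.1 e.2 / max (wf μ e.1) t)
    (c4.sub (((c1.comp continuous_fst).mul c3).div
      ((c2.comp continuous_fst).max continuous_const)
      fun e => (hP.1.trans_le (le_max_right _ _)).ne'))
    (fun φ hφ => hFO μ t hμ hP u φ hφ) a ha
  have hw := hP.2 a ha
  have h0 : wf μ a ≠ 0 := (hP.1.trans_le hw).ne'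
  have e : sf a a = -(1 + ‖(a : ℂ)‖ ^ 2) := by simp [sf, rho]
  simp only [max_eq_left hw, e] at h
  field_simp at h
  linarith

end Pool.Agent.T53
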