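import Mathlib

/-! Statements of the rows of campaign h53s: pinned distances with no three collinear points. -/

namespace Pool.Agent.T53

open Finset Filter Topology MeasureTheory

noncomputable section

/-! ### Finite tripod systems -/

abbrev K4 := ℂ × ℂ × ℂ × ℂ

/-- `(a, b₁, b₂, b₃)`: the three `bᵢ` are at the same distance from `a`. -/
def IsK (k : K4) : Prop := k.1 ≠ k.2.1 ∧ k.2.2.1 ≠ k.2.2.2 ∧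
  dist k.1 k.2.2.1 = dist k.1 k.2.2.2 ∧ dist k.1 k.2.1 = dist k.1 k.2.2.1

/-- The six projections to pairs. -/
def pr (i : Fin 6) (k : K4) : ℂ × ℂ :=
  ![(k.1, k.2.1), (k.2.2.1, k.2.2.2), (k.1, k.2.2.1), (k.1, k.2.2.2), (k.2.1, k.2.2.1),
    (k.2.1, k.2.2.2)] i

structure KS (Q : Finset ℂ) (K : Finset K4) (ε : ℝ) : Prop where
  ne : Q.Nonempty
  mem : ∀ k ∈ K, k.1 ∈ Q ∧ k.2.1 ∈ Q ∧ k.2.2.1 ∈ Q ∧ k.2.2.2 ∈ Q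
  kite : ∀ k ∈ K, IsK k
  fib : ∀ (i : Fin 6) (e : ℂ × ℂ), #{k ∈ K | pr i k = e} ≤ 2
  big : (2 - ε) * (#Q : ℝ) ^ 2 ≤ #K

def GP (P : Finset ℂ) : Prop :=
  ∀ x ∈ P, ∀ y ∈ P, ∀ z ∈ P, x ≠ y → x ≠ z → y ≠ z → ¬Collinear ℝ {x, y, z}

open Classical in
def KT (P : Finset ℂ) : Finset K4 := {k ∈ P ×ˢ P ×ˢ P ×ˢ P | IsK k ∧ k.2.1 ≠ k.2.2.1 ∧
  k.2.1 ≠ k.2.2.2 ∧ #{x ∈ P | dist k.1 x = dist k.1 k.2.1} = 3}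

def FIB_s : Prop := ∀ P : Finset ℂ, GP P → ∀ (i : Fin 6) (e : ℂ × ℂ), #{k ∈ KT P | pr i k = e} ≤ 2

def CNT_s : Prop := ∀ (P : Finset ℂ) (c : ℝ), GP P →
  (∑ a ∈ P, (#((P.erase a).image (dist a)) : ℝ)) ≤ (1 / 3 + c) * (#P : ℝ) ^ 2 →
    (2 - 48 * c) * (#P : ℝ) ^ 2 - 18 * #P ≤ #(KT P)

/-- The proportion of points outside a disc. -/
def TT (Q : Finset ℂ) (z : ℂ) (r : ℝ) : ℝ := (#{x ∈ Q | r < dist x z} : ℝ) / #Q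

def TAIL_s : Prop := ∀ (Q : Finset ℂ) (K : Finset K4) (ε : ℝ) (z : ℂ) (L : ℝ), KS Q K ε →
  TT Q z L ≤ 1 / 4 → TT Q z (3 * L) ≤ ε

def DISC_s : Prop := ∀ Q : Finset ℂ, 2 ≤ #Q → ∃ (z : ℂ) (L : ℝ), 0 < L ∧ TT Q z L ≤ 1 / 4 ∧
  ∀ (z' : ℂ) (r : ℝ), TT Q z' r ≤ 1 / 4 → L ≤ 2 * r

def CUT_s : Prop := ∀ (Q Q' : Finset ℂ) (K : Finset K4) (ε δ : ℝ), KS Q K ε → Q' ⊆ Q →
  Q'.Nonempty → (1 - δ) * #Q ≤ (#Q' : ℝ) → ∃ K' : Finset K4, KS Q' K' (ε + 8 * δ)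

def AFF_s : Prop := ∀ (Q : Finset ℂ) (K : Finset K4) (ε : ℝ) (z : ℂ) (s : ℝ), KS Q K ε → 0 < s →
  ∃ K' : Finset K4, KS (Q.image fun x => (x - z) / (s : ℂ)) K' ε

/-- Normalised systems. -/
structure NS (ε : ℝ) (Q : Finset ℂ) (K : Finset K4) : Prop where
  ks : KS Q K ε
  mean : ∑ x ∈ Q, x = 0
  var : ∑ x ∈ Q, ‖x‖ ^ 2 = #Q
  sup : ∀ x ∈ Q, ‖x‖ ≤ 36

def NORM_s : Prop := ∀ (Q : Finset ℂ) (K : Finset K4) (ε : ℝ), 0 ≤ ε → ε ≤ 1 / 10 → KS Q K ε →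
  ∃ (Q' : Finset ℂ) (K' : Finset K4), NS (9 * ε) Q' K'

def APP_s : Prop := ∀ (Q : Finset ℂ) (K : Finset K4) (ε M : ℝ) (i : Fin 6) (φ : ℂ × ℂ → ℝ),
  KS Q K ε → 0 ≤ ε → ε ≤ 1 → (∀ x ∈ Q, ∀ y ∈ Q, |φ (x, y)| ≤ M) →
    |(∑ k ∈ K, φ (pr i k)) / #K - (∑ e ∈ Q ×ˢ Q, φ e) / (#Q : ℝ) ^ 2| ≤ 2 * ε * M

/-- Squared distance. -/
def rho (a b : ℂ) : ℝ := ‖a - b‖ ^ 2

/-- Average over ordered pairs. -/
def av (Q : Finset ℂ) (φ : ℂ × ℂ → ℝ) : ℝ := (∑ e ∈ Q ×ˢ Q, φ e) / (#Q : ℝ) ^ 2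

def KEYF_s : Prop := ∀ (Q : Finset ℂ) (K : Finset K4) (ε M : ℝ) (f : ℂ → ℝ) (h : ℂ × ℝ → ℝ),
  KS Q K ε → 0 ≤ ε → ε ≤ 1 → (∀ x ∈ Q, |f x| ≤ M) → (∀ x ∈ Q, ∀ y ∈ Q, |h (x, rho x y)| ≤ M) →
    0 ≤ 3 * av Q (fun e => f e.2 ^ 2) + 6 * av Q (fun e => f e.1 * f e.2)
      - 18 * av Q (fun e => f e.2 * h (e.1, rho e.1 e.2))
      + 9 * av Q (fun e => h (e.1, rho e.1 e.2) ^ 2) + 72 * ε * M ^ 2

/-! ### The limit measure -/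

abbrev B : Type := Metric.closedBall (0 : ℂ) 36

def LIMA_s : Prop := ∀ Q : ℕ → Finset ℂ, (∀ j, (Q j).Nonempty) → (∀ j, ∀ x ∈ Q j, ‖x‖ ≤ 36) →
  ∃ μ : Measure B, IsProbabilityMeasure μ ∧ ∀ φ : ℂ × ℂ → ℝ, Continuous φ →
    Tendsto (fun j => av (Q j) φ) (hyperfilter ℕ) (𝓝 (∫ a : B, ∫ b : B, φ (a, b) ∂μ ∂μ))

structure LM (μ : Measure B) : Prop where
  prob : IsProbabilityMeasure μ
  mre : ∫ x : B, (x : ℂ).re ∂μ = 0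
  mim : ∫ x : B, (x : ℂ).im ∂μ = 0
  var : ∫ x : B, ‖(x : ℂ)‖ ^ 2 ∂μ = 1
  key : ∀ (f : ℂ → ℝ) (h : ℂ × ℝ → ℝ), Continuous f → Continuous h → ∫ b : B, f b ∂μ = 0 →
    2 * (∫ a : B, ∫ b : B, f b * h (a, rho a b) ∂μ ∂μ)
      - (∫ a : B, ∫ b : B, h (a, rho a b) ^ 2 ∂μ ∂μ) ≤ (∫ b : B, f b ^ 2 ∂μ) / 3

def LIMB_s : Prop := ∀ (Q : ℕ → Finset ℂ) (K : ℕ → Finset K4),
  (∀ j : ℕ, NS (1 / (j + 1)) (Q j) (K j)) → ∃ μ : Measure B, LM μ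

def ip (μ : Measure B) (f g : ℂ → ℝ) : ℝ := ∫ b : B, f b * g b ∂μ

def lin (u : Fin 3 → ℝ) (b : ℂ) : ℝ := u 0 * b.re + u 1 * b.im + u 2 * (‖b‖ ^ 2 - 1)

/-- `sf a = lin ![-2 * a.re, -2 * a.im, 1]`. -/
def sf (a b : ℂ) : ℝ := rho a b - (1 + ‖a‖ ^ 2)

def wf (μ : Measure B) (a : ℂ) : ℝ := ip μ (sf a) (sf a)

def Pos (μ : Measure B) (t : ℝ) : Prop := 0 < t ∧ ∀ a ∈ μ.support, t ≤ wf μ a

def Pq (μ : Measure B) (t : ℝ) (u : Fin 3 → ℝ) : ℝ :=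
  ∫ a : B, ip μ (lin u) (sf a) ^ 2 / max (wf μ a) t ∂μ

/-- A continuous nonnegative function of integral zero vanishes on the support. -/
def ZS_s : Prop := ∀ (μ : Measure B) [IsProbabilityMeasure μ] (g : B → ℝ), Continuous g →
  (∀ x, 0 ≤ g x) → ∫ x, g x ∂μ = 0 → ∀ a ∈ μ.support, g a = 0

def POS_s : Prop := ∀ μ : Measure B, IsProbabilityMeasure μ → ∃ t : ℝ, Pos μ t

def UP_s : Prop := ∀ (μ : Measure B) (t : ℝ), LM μ → Pos μ t →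
  ∀ u, Pq μ t u ≤ ip μ (lin u) (lin u) / 3

def ORT_s : Prop := ∀ G : LinearMap.BilinForm ℝ (Fin 3 → ℝ), (∀ u v, G u v = G v u) →
  ∃ e : Fin 3 → Fin 3 → ℝ, (∀ l, G l l = ∑ k, G (e k) l ^ 2 / G (e k) (e k)) ∧
    ∀ H : LinearMap.BilinForm ℝ (Fin 3 → ℝ), (∀ u v, H u v = H v u) → (∀ u, 0 ≤ H u u) →
      (∀ k, H (e k) (e k) = 0) → ∀ u, H u u = 0

def EQ_s : Prop := ∀ (μ : Measure B) (t : ℝ), LM μ → Pos μ t →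
  ∀ u, Pq μ t u = ip μ (lin u) (lin u) / 3

def FO_s : Prop := ∀ (μ : Measure B) (t : ℝ), LM μ → Pos μ t → ∀ (u : Fin 3 → ℝ) (φ : ℂ × ℝ → ℝ),
  Continuous φ → ∫ a : B, ∫ b : B, (lin u b - ip μ (lin u) (sf a) * sf a b / max (wf μ a) t)
    * φ (a, rho a b) ∂μ ∂μ = 0

def LOC_s : Prop := ∀ (μ : Measure B) [IsProbabilityMeasure μ] (F : ℂ × ℂ → ℝ), Continuous F →
  (∀ φ : ℂ × ℝ → ℝ, Continuous φ → ∫ a : B, ∫ b : B, F (a, b) * φ (a, rho a b) ∂μ ∂μ = 0) →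
    ∀ a ∈ μ.support, F (a, a) = 0

def DG_s : Prop := ∀ (μ : Measure B) (t : ℝ), LM μ → Pos μ t → ∀ u, ∀ a ∈ μ.support,
  ip μ (lin u) (sf a) * (1 + ‖(a : ℂ)‖ ^ 2) = -(wf μ a * lin u a)

def FIN_s : Prop := ∀ (μ : Measure B) (t : ℝ), LM μ → Pos μ t → False

def NOL_s : Prop := ∀ (Q : ℕ → Finset ℂ) (K : ℕ → Finset K4),
  (∀ j : ℕ, NS (1 / (j + 1)) (Q j) (K j)) → False

def TOP_s : Prop := ∃ c : ℝ, 0 < c ∧ ∃ n₀ : ℕ, ∀ P : Finset ℂ, n₀ ≤ #P → GP P →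
  (1 / 3 + c) * (#P : ℝ) ^ 2 < ∑ a ∈ P, (#((P.erase a).image (dist a)) : ℝ)

/-- Continuous functions on the disc are integrable. -/
theorem cint (μ : Measure B) [IsFiniteMeasure μ] {g : B → ℝ} (hg : Continuous g) :
    Integrable g μ :=
  hg.integrable_of_hasCompactSupport (HasCompactSupport.of_compactSpace g)

/-- Parametric integrals of continuous functions are continuous. -/
theorem cpi (μ : Measure B) [IsFiniteMeasure μ] {F : ℂ → B → ℝ}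
    (hF : Continuous (Function.uncurry F)) : Continuous fun a : ℂ => ∫ b : B, F a b ∂μ := by
  have h := continuous_parametric_integral_of_continuous (μ := μ) hF isCompact_univ
  simpa only [Measure.restrict_univ] using h

end

end Pool.Agent.T53
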