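import Pool.Agent.MP_e70dc0_co.T53.Defs

namespace Pool.Agent.T53

open Finset Filter Topology MeasureTheory

theorem eq53_cl (u : Fin 3 → ℝ) : Continuous (lin u) := by
  unfold lin
  fun_prop

theorem eq53_sf (a : ℂ) : sf a = lin ![-2 * a.re, -2 * a.im, 1] := by
  funext b
  simp only [sf, rho, lin, Matrix.cons_val_zero, Matrix.cons_val_one, Matrix.cons_val_two,
    Matrix.head_cons, Matrix.tail_cons, Complex.sq_norm, Complex.normSq_apply, Complex.sub_re,
    Complex.sub_im]
  ring

theorem eq53_int (μ : Measure B) [IsFiniteMeasure μ] (u v : Fin 3 → ℝ) :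
    Integrable (fun b : B => lin u b * lin v b) μ :=
  cint μ (((eq53_cl u).comp continuous_subtype_val).mul ((eq53_cl v).comp continuous_subtype_val))

theorem eq53_add (μ : Measure B) [IsFiniteMeasure μ] (u u' v : Fin 3 → ℝ) :
    ip μ (lin (u + u')) (lin v) = ip μ (lin u) (lin v) + ip μ (lin u') (lin v) := by
  unfold ip
  rw [← integral_add (eq53_int μ u v) (eq53_int μ u' v)]
  refine integral_congr_ae (Eventually.of_forall fun b => ?_)
  simp only [lin, Pi.add_apply]
  ring

theorem eq53_smul (μ : Measure B) (c : ℝ) (u v : Fin 3 → ℝ) :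
    ip μ (lin (c • u)) (lin v) = c * ip μ (lin u) (lin v) := by
  unfold ip
  rw [← integral_const_mul]
  refine integral_congr_ae (Eventually.of_forall fun b => ?_)
  simp only [lin, Pi.smul_apply, smul_eq_mul]
  ring

theorem eq53_comm (μ : Measure B) (f g : ℂ → ℝ) : ip μ f g = ip μ g f := by
  unfold ip
  simp only [mul_comm]

theorem eq53_cip (μ : Measure B) [IsFiniteMeasure μ] (u : Fin 3 → ℝ) :
    Continuous fun a : ℂ => ip μ (lin u) (sf a) := by
  unfold ip
  refine cpi μ (F := fun a b => lin u b * sf a b) ?_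
  unfold Function.uncurry lin sf rho
  fun_prop

theorem eq53_cw (μ : Measure B) [IsFiniteMeasure μ] : Continuous (wf μ) := by
  unfold wf ip
  refine cpi μ (F := fun a b => sf a b * sf a b) ?_
  unfold Function.uncurry sf rho
  fun_prop

theorem eq53_intP (μ : Measure B) [IsFiniteMeasure μ] {t : ℝ} (ht : 0 < t) (u v : Fin 3 → ℝ) :
    Integrable (fun a : B => ip μ (lin u) (sf a) * ip μ (lin v) (sf a) / max (wf μ a) t) μ := by
  refine cint μ (Continuous.div (((eq53_cip μ u).comp continuous_subtype_val).mul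
    ((eq53_cip μ v).comp continuous_subtype_val))
    (((eq53_cw μ).comp continuous_subtype_val).max continuous_const) fun a => ?_)
  exact (lt_of_lt_of_le ht (le_max_right _ _)).ne'

theorem eq_row (hU : UP_s) (hO : ORT_s) : EQ_s := by
  intro μ t hμ hP
  have := hμ.prob
  have hup := hU μ t hμ hP
  let G : LinearMap.BilinForm ℝ (Fin 3 → ℝ) := LinearMap.mk₂ ℝ
    (fun u v => ip μ (lin u) (lin v)) (eq53_add μ) (fun c u v => eq53_smul μ c u v)
    (fun u v v' => by rw [eq53_comm, eq53_add, eq53_comm μ (lin v), eq53_comm μ (lin v')])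
    (fun c u v => by rw [eq53_comm, eq53_smul, eq53_comm μ (lin v), smul_eq_mul])
  have hG : ∀ u v, G u v = ip μ (lin u) (lin v) := fun _ _ => rfl
  have pc : ∀ u v : Fin 3 → ℝ,
      (∫ a : B, ip μ (lin u) (sf a) * ip μ (lin v) (sf a) / max (wf μ a) t ∂μ) =
        ∫ a : B, ip μ (lin v) (sf a) * ip μ (lin u) (sf a) / max (wf μ a) t ∂μ := by
    intro u v
    simp only [mul_comm]
  have pa : ∀ u u' v : Fin 3 → ℝ,
      (∫ a : B, ip μ (lin (u + u')) (sf a) * ip μ (lin v) (sf a) / max (wf μ a) t ∂μ) =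
        (∫ a : B, ip μ (lin u) (sf a) * ip μ (lin v) (sf a) / max (wf μ a) t ∂μ) +
        ∫ a : B, ip μ (lin u') (sf a) * ip μ (lin v) (sf a) / max (wf μ a) t ∂μ := by
    intro u u' v
    rw [← integral_add (eq53_intP μ hP.1 u v) (eq53_intP μ hP.1 u' v)]
    refine integral_congr_ae (Eventually.of_forall fun a => ?_)
    simp only [eq53_sf, eq53_add]
    ring
  have ps : ∀ (c : ℝ) (u v : Fin 3 → ℝ),
      (∫ a : B, ip μ (lin (c • u)) (sf a) * ip μ (lin v) (sf a) / max (wf μ a) t ∂μ) =
        c * ∫ a : B, ip μ (lin u) (sf a) * ip μ (lin v) (sf a) / max (wf μ a) t ∂μ := by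
    intro c u v
    rw [← integral_const_mul]
    refine integral_congr_ae (Eventually.of_forall fun a => ?_)
    simp only [eq53_sf, eq53_smul]
    ring
  let P : LinearMap.BilinForm ℝ (Fin 3 → ℝ) := LinearMap.mk₂ ℝ
    (fun u v => ∫ a : B, ip μ (lin u) (sf a) * ip μ (lin v) (sf a) / max (wf μ a) t ∂μ) pa
    (fun c u v => ps c u v)
    (fun u v v' => by rw [pc, pa, pc v, pc v'])
    (fun c u v => by rw [pc, ps, pc v, smul_eq_mul])
  have hPq : ∀ u, P u u = Pq μ t u := by
    intro u
    change (∫ a : B, ip μ (lin u) (sf a) * ip μ (lin u) (sf a) / max (wf μ a) t ∂μ) = Pq μ t u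
    simp only [Pq, sq]
  obtain ⟨e, he1, he2⟩ := hO G fun u v => eq53_comm μ _ _
  have hone : (1 : ℝ) = ∑ k, Pq μ t (e k) / G (e k) (e k) := by
    have h1 : ∀ k, Pq μ t (e k) / G (e k) (e k) =
        ∫ a : B, ip μ (lin (e k)) (sf a) * ip μ (lin (e k)) (sf a) / max (wf μ a) t /
          G (e k) (e k) ∂μ := by
      intro k
      rw [integral_div, ← hPq]
      rfl
    simp only [h1]
    rw [← integral_finsetSum _ fun k _ => (eq53_intP μ hP.1 (e k) (e k)).div_const _]
    have h2 : (∫ _a : B, (1 : ℝ) ∂μ) = 1 := by simp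
    rw [← h2]
    refine integral_congr_ae ?_
    filter_upwards [Measure.support_mem_ae (μ := μ)] with a ha
    have hw := hP.2 a ha
    have hpos : 0 < wf μ a := lt_of_lt_of_le hP.1 hw
    have h3 := he1 ![-2 * (a : ℂ).re, -2 * (a : ℂ).im, 1]
    simp only [hG, ← eq53_sf] at h3
    rw [max_eq_left hw]
    have h4 : wf μ a = ∑ k, ip μ (lin (e k)) (sf a) ^ 2 / ip μ (lin (e k)) (lin (e k)) := h3
    have h5 : ∀ k, ip μ (lin (e k)) (sf a) * ip μ (lin (e k)) (sf a) / wf μ a / G (e k) (e k) =
        ip μ (lin (e k)) (sf a) ^ 2 / ip μ (lin (e k)) (lin (e k)) / wf μ a := by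
      intro k
      rw [hG]
      ring
    simp only [h5]
    rw [← Finset.sum_div, ← h4, div_self hpos.ne']
  have hnn : ∀ u, 0 ≤ G u u := fun u => integral_nonneg fun b => mul_self_nonneg _
  have hle : ∀ k, Pq μ t (e k) / G (e k) (e k) ≤ 1 / 3 := by
    intro k
    rcases (hnn (e k)).eq_or_lt with h | h
    · rw [← h]
      norm_num
    · rw [div_le_iff₀ h]
      have := hup (e k)
      rw [← hG] at this
      linarith
  have heq : ∀ k, Pq μ t (e k) = G (e k) (e k) / 3 := by
    intro k
    have h0 := hle 0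
    have h1 := hle 1
    have h2 := hle 2
    rw [Fin.sum_univ_three] at hone
    have hk : Pq μ t (e k) / G (e k) (e k) = 1 / 3 := by
      fin_cases k <;> simp only [Fin.zero_eta, Fin.mk_one, Fin.reduceFinMk] <;> linarith
    have hne : G (e k) (e k) ≠ 0 := by
      intro h
      rw [h] at hk
      norm_num at hk
    rw [div_eq_iff hne] at hk
    linarith
  intro u
  have hH : ∀ u v, ((1 / 3 : ℝ) • G - P) u v = 1 / 3 * G u v - P u v := fun _ _ => rfl
  have := he2 ((1 / 3 : ℝ) • G - P) (fun u v => by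
      rw [hH, hH, hG, hG, eq53_comm]
      exact congrArg _ (pc u v))
    (fun u => by
      rw [hH, hPq, hG]
      have := hup u
      linarith)
    (fun k => by
      rw [hH, hPq, heq]
      ring) u
  rw [hH, hPq, hG] at this
  linarith

end Pool.Agent.T53
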