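import Pool.Agent.MP_e70dc0_co.T53.Defs

/-! Row FIB: the six projections of the tripods are at most two to one. -/

namespace Pool.Agent.T53

open Finset Filter Topology MeasureTheory

theorem fib_sq (a b c d : ℂ) : dist a b = dist c d ↔
    (a.re - b.re) ^ 2 + (a.im - b.im) ^ 2 = (c.re - d.re) ^ 2 + (c.im - d.im) ^ 2 := by
  rw [Complex.dist_eq_re_im, Complex.dist_eq_re_im, Real.sqrt_inj (by positivity) (by positivity)]

theorem fib_col {p q x y z : ℂ} (h : p ≠ q)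
    (hy : (y.re - x.re) * (p.re - q.re) + (y.im - x.im) * (p.im - q.im) = 0)
    (hz : (z.re - x.re) * (p.re - q.re) + (z.im - x.im) * (p.im - q.im) = 0) :
    Collinear ℝ {x, y, z} := by
  have h0 : (p.re - q.re) ^ 2 + (p.im - q.im) ^ 2 ≠ 0 := by
    intro e
    apply h
    apply Complex.ext <;> nlinarith [sq_nonneg (p.re - q.re), sq_nonneg (p.im - q.im)]
  have key : ∀ u : ℂ, (u.re - x.re) * (p.re - q.re) + (u.im - x.im) * (p.im - q.im) = 0 →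
      ∃ r : ℝ, u = r • (⟨-(p.im - q.im), p.re - q.re⟩ : ℂ) +ᵥ x := by
    intro u hu
    refine ⟨((u.im - x.im) * (p.re - q.re) - (u.re - x.re) * (p.im - q.im)) /
      ((p.re - q.re) ^ 2 + (p.im - q.im) ^ 2), ?_⟩
    apply Complex.ext
    · simp only [vadd_eq_add, Complex.add_re, Complex.smul_re, smul_eq_mul]
      field_simp
      linear_combination (p.re - q.re) * hu
    · simp only [vadd_eq_add, Complex.add_im, Complex.smul_im, smul_eq_mul]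
      field_simp
      linear_combination (p.im - q.im) * hu
  rw [collinear_iff_of_mem (p₀ := x) (by simp)]
  refine ⟨⟨-(p.im - q.im), p.re - q.re⟩, fun u hu => ?_⟩
  rcases hu with rfl | rfl | rfl
  · exact key _ (by ring)
  · exact key _ hy
  · exact key _ hz

/-- at most two apexes -/
theorem fib_U {P : Finset ℂ} (hP : GP P) {b b' a x y : ℂ} (hb : b ≠ b') (ha : a ∈ P) (hx : x ∈ P)
    (hy : y ∈ P) (e1 : dist a b = dist a b') (e2 : dist x b = dist x b')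
    (e3 : dist y b = dist y b') (n1 : a ≠ x) (n2 : a ≠ y) : x = y := by
  by_contra n3
  rw [fib_sq] at e1 e2 e3
  exact hP a ha x hx y hy n1 n2 n3 (fib_col hb (by linarith) (by linarith))

theorem fib_two {α : Type} [DecidableEq α] (s : Finset α)
    (h : ∀ x ∈ s, ∀ y ∈ s, ∀ z ∈ s, x ≠ y → x ≠ z → y = z) : #s ≤ 2 := by
  by_contra hn
  obtain ⟨x, y, z, hx, hy, hz, n1, n2, n3⟩ := two_lt_card_iff.1 (not_le.1 hn)
  exact n3 (h x hx y hy z hz n1 n2)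

open Classical in
/-- `b, u, v` is the whole distance class of `b` seen from `a`. -/
def fib_T (P : Finset ℂ) (a b u v : ℂ) : Prop :=
  a ∈ P ∧ b ∈ P ∧ u ∈ P ∧ v ∈ P ∧ b ≠ u ∧ b ≠ v ∧ u ≠ v ∧ dist a u = dist a b ∧
    dist a v = dist a b ∧ #{x ∈ P | dist a x = dist a b} = 3

theorem fib_s1 {P : Finset ℂ} {a b u v : ℂ} (h : fib_T P a b u v) : fib_T P a u b v := by
  obtain ⟨h1, h2, h3, h4, h5, h6, h7, h8, h9, h0⟩ := h
  exact ⟨h1, h3, h2, h4, h5.symm, h7, h6, h8.symm, h9.trans h8.symm, by rw [h8]; exact h0⟩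

theorem fib_s2 {P : Finset ℂ} {a b u v : ℂ} (h : fib_T P a b u v) : fib_T P a b v u := by
  obtain ⟨h1, h2, h3, h4, h5, h6, h7, h8, h9, h0⟩ := h
  exact ⟨h1, h2, h4, h3, h6, h5, h7.symm, h9, h8, h0⟩

theorem fib_mem {P : Finset ℂ} {a b u v : ℂ} (h : (a, b, u, v) ∈ KT P) : fib_T P a b u v := by
  classical
  unfold KT at h
  obtain ⟨hm, ⟨-, h5, h6, h7⟩, h8, h9, h0⟩ := (@mem_filter _ _ (_) _ _).1 h
  simp only [mem_product] at hm
  obtain ⟨h1, h2, h3, h4⟩ := hm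
  exact ⟨h1, h2, h3, h4, h8, h9, h5, h7.symm, h6.symm.trans h7.symm, h0⟩

/-- the class has no fourth point -/
theorem fib_3 {P : Finset ℂ} {a b u v w : ℂ} (h : fib_T P a b u v) (hw : w ∈ P)
    (e : dist a w = dist a b) (n1 : b ≠ w) (n2 : u ≠ w) : v = w := by
  classical
  obtain ⟨h1, h2, h3, h4, h5, h6, h7, h8, h9, h0⟩ := h
  by_contra n3
  have h4 : ({b, u, v, w} : Finset ℂ) ⊆ {x ∈ P | dist a x = dist a b} := by
    intro y hy
    simp only [mem_insert, mem_singleton] at hy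
    rw [mem_filter]
    rcases hy with rfl | rfl | rfl | rfl
    · exact ⟨h2, rfl⟩
    · exact ⟨h3, h8⟩
    · exact ⟨h4, h9⟩
    · exact ⟨hw, e⟩
  have h5' := card_le_card h4
  rw [card_insert_of_notMem (by simp [h5, h6, n1]), card_insert_of_notMem (by simp [h7, n2]),
    card_pair n3, h0] at h5'
  omega

theorem fib_4 {P : Finset ℂ} {a b u v w : ℂ} (h : fib_T P a b u v) (h' : fib_T P a b u w) :
    v = w :=
  fib_3 h h'.2.2.2.1 h'.2.2.2.2.2.2.2.2.1 h'.2.2.2.2.2.1 h'.2.2.2.2.2.2.1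

theorem fib_A {P : Finset ℂ} {a b u v u' v' : ℂ} (h : fib_T P a b u v) (h' : fib_T P a b u' v')
    (n : ¬(u = u' ∧ v = v')) : u' = v ∧ v' = u := by
  have m : u ≠ u' := by
    rintro rfl
    exact n ⟨rfl, fib_4 h h'⟩
  obtain rfl := fib_3 h h'.2.2.1 h'.2.2.2.2.2.2.2.1 h'.2.2.2.2.1 m
  exact ⟨rfl, fib_4 h' (fib_s2 h)⟩

theorem fib_A3 {P : Finset ℂ} {a b u v u' v' u'' v'' : ℂ} (h : fib_T P a b u v)
    (h' : fib_T P a b u' v') (h'' : fib_T P a b u'' v'') (n : ¬(u = u' ∧ v = v'))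
    (n' : ¬(u = u'' ∧ v = v'')) : u' = u'' ∧ v' = v'' :=
  ⟨(fib_A h h' n).1.trans (fib_A h h'' n').1.symm, (fib_A h h' n).2.trans (fib_A h h'' n').2.symm⟩

theorem fib_B3 {P : Finset ℂ} (hP : GP P) {a a' a'' b u v v' v'' : ℂ} (h : fib_T P a b u v)
    (h' : fib_T P a' b u v') (h'' : fib_T P a'' b u v'') (n : ¬(a = a' ∧ v = v'))
    (n' : ¬(a = a'' ∧ v = v'')) : a' = a'' ∧ v' = v'' := by
  have m : a ≠ a' := by
    rintro rfl
    exact n ⟨rfl, fib_4 h h'⟩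
  have m' : a ≠ a'' := by
    rintro rfl
    exact n' ⟨rfl, fib_4 h h''⟩
  obtain rfl := fib_U hP h.2.2.2.2.1 h.1 h'.1 h''.1 h.2.2.2.2.2.2.2.1.symm
    h'.2.2.2.2.2.2.2.1.symm h''.2.2.2.2.2.2.2.1.symm m m'
  exact ⟨rfl, fib_4 h' h''⟩

theorem fib_row : FIB_s := by
  intro P hP i e
  classical
  refine fib_two _ ?_
  rintro ⟨a, a', b, b'⟩ hx ⟨c, c', d, d'⟩ hy ⟨f, f', g, g'⟩ hz n1 n2
  rw [mem_filter] at hx hy hz
  have p := fib_mem hx.1
  have q := fib_mem hy.1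
  have r := fib_mem hz.1
  have u1 := hx.2.trans hy.2.symm
  have u2 := hx.2.trans hz.2.symm
  simp only [ne_eq, Prod.mk.injEq] at n1 n2 ⊢
  fin_cases i
  · obtain ⟨rfl, rfl⟩ : a = c ∧ a' = c' := by simpa [pr] using u1
    obtain ⟨rfl, rfl⟩ : a = f ∧ a' = f' := by simpa [pr] using u2
    have := fib_A3 p q r (fun h => n1 ⟨rfl, rfl, h.1, h.2⟩) fun h => n2 ⟨rfl, rfl, h.1, h.2⟩
    exact ⟨rfl, rfl, this.1, this.2⟩
  · obtain ⟨rfl, rfl⟩ : b = d ∧ b' = d' := by simpa [pr] using u1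
    obtain ⟨rfl, rfl⟩ : b = g ∧ b' = g' := by simpa [pr] using u2
    have := fib_B3 hP (fib_s2 (fib_s1 p)) (fib_s2 (fib_s1 q)) (fib_s2 (fib_s1 r))
      (fun h => n1 ⟨h.1, h.2, rfl, rfl⟩) fun h => n2 ⟨h.1, h.2, rfl, rfl⟩
    exact ⟨this.1, this.2, rfl, rfl⟩
  · obtain ⟨rfl, rfl⟩ : a = c ∧ b = d := by simpa [pr] using u1
    obtain ⟨rfl, rfl⟩ : a = f ∧ b = g := by simpa [pr] using u2
    have := fib_A3 (fib_s1 p) (fib_s1 q) (fib_s1 r) (fun h => n1 ⟨rfl, h.1, rfl, h.2⟩)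
      fun h => n2 ⟨rfl, h.1, rfl, h.2⟩
    exact ⟨rfl, this.1, rfl, this.2⟩
  · obtain ⟨rfl, rfl⟩ : a = c ∧ b' = d' := by simpa [pr] using u1
    obtain ⟨rfl, rfl⟩ : a = f ∧ b' = g' := by simpa [pr] using u2
    have := fib_A3 (fib_s1 (fib_s2 p)) (fib_s1 (fib_s2 q)) (fib_s1 (fib_s2 r))
      (fun h => n1 ⟨rfl, h.1, h.2, rfl⟩) fun h => n2 ⟨rfl, h.1, h.2, rfl⟩
    exact ⟨rfl, this.1, this.2, rfl⟩
  · obtain ⟨rfl, rfl⟩ : a' = c' ∧ b = d := by simpa [pr] using u1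
    obtain ⟨rfl, rfl⟩ : a' = f' ∧ b = g := by simpa [pr] using u2
    have := fib_B3 hP p q r (fun h => n1 ⟨h.1, rfl, rfl, h.2⟩) fun h => n2 ⟨h.1, rfl, rfl, h.2⟩
    exact ⟨this.1, rfl, rfl, this.2⟩
  · obtain ⟨rfl, rfl⟩ : a' = c' ∧ b' = d' := by simpa [pr] using u1
    obtain ⟨rfl, rfl⟩ : a' = f' ∧ b' = g' := by simpa [pr] using u2
    have := fib_B3 hP (fib_s2 p) (fib_s2 q) (fib_s2 r) (fun h => n1 ⟨h.1, rfl, h.2, rfl⟩)
      fun h => n2 ⟨h.1, rfl, h.2, rfl⟩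
    exact ⟨this.1, rfl, this.2, rfl⟩

end Pool.Agent.T53
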