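import Pool.Agent.MP_e70dc0_co.T53.Defs

namespace Pool.Agent.T53

open Finset Filter Topology MeasureTheory

theorem fin_x (b : ℂ) : lin ![1, 0, 0] b = b.re := by simp [lin]

theorem fin_y (b : ℂ) : lin ![0, 1, 0] b = b.im := by simp [lin]

theorem fin_z (b : ℂ) : lin ![0, 0, 1] b = ‖b‖ ^ 2 - 1 := by simp [lin]

theorem fin_n (b : ℂ) : ‖b‖ ^ 2 = b.re ^ 2 + b.im ^ 2 := by
  rw [Complex.sq_norm, Complex.normSq_apply]; ring

theorem fin_cl (u : Fin 3 → ℝ) : Continuous (lin u) := by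
  unfold lin; fun_prop

theorem fin_sf (a b : ℂ) : sf a b =
    lin ![0, 0, 1] b - 2 * a.re * lin ![1, 0, 0] b - 2 * a.im * lin ![0, 1, 0] b := by
  rw [fin_x, fin_y, fin_z, sf, rho, fin_n, fin_n, fin_n, Complex.sub_re, Complex.sub_im]
  ring

theorem fin_cs (a : ℂ) : Continuous (sf a) := by
  unfold sf rho; fun_prop

theorem fin_comm (μ : Measure B) (f g : ℂ → ℝ) : ip μ f g = ip μ g f := by
  unfold ip; simp only [mul_comm]

theorem fin_add3 (μ : Measure B) {f g h : B → ℝ} (hf : Integrable f μ) (hg : Integrable g μ)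
    (hh : Integrable h μ) (r s : ℝ) : ∫ b, (f b + r * g b + s * h b) ∂μ =
      ∫ b, f b ∂μ + r * ∫ b, g b ∂μ + s * ∫ b, h b ∂μ := by
  have i1 : Integrable (fun b => f b + r * g b) μ := hf.add (hg.const_mul r)
  rw [integral_add i1 (hh.const_mul s), integral_add hf (hg.const_mul r), integral_const_mul,
    integral_const_mul]

theorem fin_ip (μ : Measure B) [IsFiniteMeasure μ] {f : ℂ → ℝ} (hf : Continuous f) (a : ℂ) :
    ip μ f (sf a) = ip μ f (lin ![0, 0, 1]) - 2 * a.re * ip μ f (lin ![1, 0, 0])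
      - 2 * a.im * ip μ f (lin ![0, 1, 0]) := by
  have I : ∀ u, Integrable (fun b : B => f b * lin u b) μ := fun u =>
    cint μ ((hf.mul (fin_cl u)).comp continuous_subtype_val)
  have k := fin_add3 μ (I ![0, 0, 1]) (I ![1, 0, 0]) (I ![0, 1, 0]) (-(2 * a.re)) (-(2 * a.im))
  have e : ip μ f (sf a) = ∫ b : B, (f b * lin ![0, 0, 1] b +
      -(2 * a.re) * (f b * lin ![1, 0, 0] b) + -(2 * a.im) * (f b * lin ![0, 1, 0] b)) ∂μ := by
    refine integral_congr_ae (Eventually.of_forall fun b => ?_)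
    simp only [fin_sf]
    ring
  rw [e, k]
  unfold ip
  ring

theorem fin_w (μ : Measure B) [IsFiniteMeasure μ] (a : ℂ) :
    wf μ a = ip μ (lin ![0, 0, 1]) (lin ![0, 0, 1])
      - 4 * ip μ (lin ![0, 0, 1]) (lin ![1, 0, 0]) * a.re
      - 4 * ip μ (lin ![0, 0, 1]) (lin ![0, 1, 0]) * a.im
      + 4 * ip μ (lin ![1, 0, 0]) (lin ![1, 0, 0]) * (a.re * a.re)
      + 8 * ip μ (lin ![1, 0, 0]) (lin ![0, 1, 0]) * (a.re * a.im)
      + 4 * ip μ (lin ![0, 1, 0]) (lin ![0, 1, 0]) * (a.im * a.im) := by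
  rw [wf, fin_ip μ (fin_cs a), fin_comm μ (sf a), fin_comm μ (sf a), fin_comm μ (sf a),
    fin_ip μ (fin_cl _), fin_ip μ (fin_cl _), fin_ip μ (fin_cl _),
    fin_comm μ (lin ![1, 0, 0]) (lin ![0, 0, 1]), fin_comm μ (lin ![0, 1, 0]) (lin ![0, 0, 1]),
    fin_comm μ (lin ![0, 1, 0]) (lin ![1, 0, 0])]
  ring

theorem fin_row (hU : UP_s) (hD : DG_s) : FIN_s := by
  intro μ t hL hP
  have := hL.prob
  have cw : Continuous (wf μ) := by
    rw [funext (fin_w μ)]; fun_prop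
  have cc : ∀ u, Continuous fun a : ℂ => ip μ (lin u) (sf a) := fun u => by
    rw [funext (fin_ip μ (fin_cl u))]; fun_prop
  have I : ∀ u, Integrable (fun a : B => ip μ (lin u) (sf a) ^ 2 / max (wf μ a) t) μ := fun u =>
    cint μ ((((cc u).pow 2).div (cw.max continuous_const)
      fun a => (hP.1.trans_le (le_max_right _ _)).ne').comp continuous_subtype_val)
  have e1 : ∫ a : B, wf μ a ∂μ = Pq μ t ![0, 0, 1] + 4 * Pq μ t ![1, 0, 0] +
      4 * Pq μ t ![0, 1, 0] := by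
    unfold Pq
    rw [← fin_add3 μ (I _) (I _) (I _)]
    refine integral_congr_ae ?_
    filter_upwards [μ.support_mem_ae] with a ha
    have h1 := hD μ t hL hP ![1, 0, 0] a ha
    have h2 := hD μ t hL hP ![0, 1, 0] a ha
    have h3 := hD μ t hL hP ![0, 0, 1] a ha
    rw [fin_x] at h1
    rw [fin_y] at h2
    rw [fin_z] at h3
    have hw := hP.2 a ha
    have hw0 : 0 < wf μ a := hP.1.trans_le hw
    have hn := fin_n a
    have hA : (0 : ℝ) < 1 + ‖(a : ℂ)‖ ^ 2 := by positivity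
    have key : wf μ a ^ 2 = ip μ (lin ![0, 0, 1]) (sf a) ^ 2 +
        4 * ip μ (lin ![1, 0, 0]) (sf a) ^ 2 + 4 * ip μ (lin ![0, 1, 0]) (sf a) ^ 2 := by
      refine mul_right_cancel₀ (pow_pos hA 2).ne' ?_
      have e : (ip μ (lin ![0, 0, 1]) (sf a) ^ 2 + 4 * ip μ (lin ![1, 0, 0]) (sf a) ^ 2 +
          4 * ip μ (lin ![0, 1, 0]) (sf a) ^ 2) * (1 + ‖(a : ℂ)‖ ^ 2) ^ 2 =
          (ip μ (lin ![0, 0, 1]) (sf a) * (1 + ‖(a : ℂ)‖ ^ 2)) ^ 2 +
          4 * (ip μ (lin ![1, 0, 0]) (sf a) * (1 + ‖(a : ℂ)‖ ^ 2)) ^ 2 +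
          4 * (ip μ (lin ![0, 1, 0]) (sf a) * (1 + ‖(a : ℂ)‖ ^ 2)) ^ 2 := by ring
      rw [e, h1, h2, h3, hn]
      ring
    simp only [max_eq_left hw]
    field_simp
    linarith
  have s11 : ∫ a : B, (a : ℂ).re * (a : ℂ).re ∂μ = ip μ (lin ![1, 0, 0]) (lin ![1, 0, 0]) := by
    simp only [ip, fin_x]
  have s12 : ∫ a : B, (a : ℂ).re * (a : ℂ).im ∂μ = ip μ (lin ![1, 0, 0]) (lin ![0, 1, 0]) := by
    simp only [ip, fin_x, fin_y]
  have s22 : ∫ a : B, (a : ℂ).im * (a : ℂ).im ∂μ = ip μ (lin ![0, 1, 0]) (lin ![0, 1, 0]) := by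
    simp only [ip, fin_y]
  have e2 : ∫ a : B, wf μ a ∂μ = ip μ (lin ![0, 0, 1]) (lin ![0, 0, 1])
      + 4 * ip μ (lin ![1, 0, 0]) (lin ![1, 0, 0]) ^ 2
      + 8 * ip μ (lin ![1, 0, 0]) (lin ![0, 1, 0]) ^ 2
      + 4 * ip μ (lin ![0, 1, 0]) (lin ![0, 1, 0]) ^ 2 := by
    simp only [fin_w]
    rw [integral_add (cint μ (by fun_prop)) (cint μ (by fun_prop)),
      integral_add (cint μ (by fun_prop)) (cint μ (by fun_prop)),
      integral_add (cint μ (by fun_prop)) (cint μ (by fun_prop)),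
      integral_sub (cint μ (by fun_prop)) (cint μ (by fun_prop)),
      integral_sub (cint μ (by fun_prop)) (cint μ (by fun_prop))]
    simp only [integral_const_mul, s11, s12, s22, hL.mre, hL.mim, integral_const, probReal_univ,
      smul_eq_mul]
    ring
  have e3 : ip μ (lin ![1, 0, 0]) (lin ![1, 0, 0]) + ip μ (lin ![0, 1, 0]) (lin ![0, 1, 0]) = 1 := by
    rw [← s11, ← s22, ← integral_add (cint μ (by fun_prop)) (cint μ (by fun_prop)), ← hL.var]
    refine integral_congr_ae (Eventually.of_forall fun b => ?_)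
    simp only [fin_n]
    ring
  have v0 : 0 ≤ ip μ (lin ![0, 0, 1]) (lin ![0, 0, 1]) :=
    integral_nonneg fun b => mul_self_nonneg _
  have u1 := hU μ t hL hP ![1, 0, 0]
  have u2 := hU μ t hL hP ![0, 1, 0]
  have u3 := hU μ t hL hP ![0, 0, 1]
  nlinarith [sq_nonneg (ip μ (lin ![1, 0, 0]) (lin ![1, 0, 0]) -
    ip μ (lin ![0, 1, 0]) (lin ![0, 1, 0])), sq_nonneg (ip μ (lin ![1, 0, 0]) (lin ![0, 1, 0]))]

end Pool.Agent.T53
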