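import Pool.Agent.MP_e70dc0_co.T53.Defs

/-! The first-order condition. -/

namespace Pool.Agent.T53

open Finset Filter Topology MeasureTheory

/-- double integral -/
noncomputable def fo_I (μ : Measure B) (G : ℂ × ℂ → ℝ) : ℝ := ∫ a : B, ∫ b : B, G (a, b) ∂μ ∂μ

theorem fo_unc {G : ℂ × ℂ → ℝ} (hG : Continuous G) :
    Continuous (Function.uncurry fun (a : ℂ) (b : B) => G (a, b)) :=
  hG.comp (continuous_fst.prodMk (continuous_subtype_val.comp continuous_snd))

theorem fo_in (μ : Measure B) [IsFiniteMeasure μ] {G : ℂ × ℂ → ℝ} (hG : Continuous G) (a : ℂ) :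
    Integrable (fun b : B => G (a, b)) μ :=
  cint μ (hG.comp (continuous_const.prodMk continuous_subtype_val))

theorem fo_out (μ : Measure B) [IsFiniteMeasure μ] {G : ℂ × ℂ → ℝ} (hG : Continuous G) :
    Integrable (fun a : B => ∫ b : B, G (a, b) ∂μ) μ :=
  cint μ ((cpi μ (fo_unc hG)).comp continuous_subtype_val)

theorem fo_lin (μ : Measure B) [IsFiniteMeasure μ] {G H : ℂ × ℂ → ℝ} (hG : Continuous G)
    (hH : Continuous H) (c : ℝ) :
    fo_I μ (fun e => G e + c * H e) = fo_I μ G + c * fo_I μ H := by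
  unfold fo_I
  have h1 : ∀ a : B, ∫ b : B, (G (a, b) + c * H (a, b)) ∂μ =
      ∫ b : B, G (a, b) ∂μ + c * ∫ b : B, H (a, b) ∂μ := fun a => by
    rw [integral_add (fo_in μ hG a) ((fo_in μ hH a).const_mul c), integral_const_mul]
  simp only [h1]
  rw [integral_add (fo_out μ hG) ((fo_out μ hH).const_mul c), integral_const_mul]

theorem fo_clin (u : Fin 3 → ℝ) : Continuous (lin u) := by
  unfold lin
  fun_prop

theorem fo_csf : Continuous fun e : ℂ × ℂ => sf e.1 e.2 := by
  unfold sf rho
  fun_prop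

theorem fo_crho : Continuous fun e : ℂ × ℂ => rho e.1 e.2 := by
  unfold rho
  fun_prop

theorem fo_mean {μ : Measure B} (h : LM μ) (u : Fin 3 → ℝ) : ∫ b : B, lin u b ∂μ = 0 := by
  have hp := h.prob
  have i1 : Integrable (fun b : B => (b : ℂ).re) μ := cint μ (by fun_prop)
  have i2 : Integrable (fun b : B => (b : ℂ).im) μ := cint μ (by fun_prop)
  have i3 : Integrable (fun b : B => ‖(b : ℂ)‖ ^ 2) μ := cint μ (by fun_prop)
  have i4 : Integrable (fun b : B => ‖(b : ℂ)‖ ^ 2 - 1) μ := i3.sub (integrable_const 1)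
  have i5 : Integrable (fun b : B => u 0 * (b : ℂ).re + u 1 * (b : ℂ).im) μ :=
    (i1.const_mul _).add (i2.const_mul _)
  unfold lin
  rw [integral_add i5 (i4.const_mul _), integral_add (i1.const_mul _) (i2.const_mul _),
    integral_const_mul, integral_const_mul, integral_const_mul,
    integral_sub i3 (integrable_const 1), h.mre, h.mim, h.var]
  simp

theorem fo_zero {I J : ℝ} (hJ : 0 ≤ J) (h : ∀ τ : ℝ, 2 * τ * I ≤ τ ^ 2 * J) : I = 0 := by
  have h1 := h (I / (J + 1))
  have hJ1 : 0 < J + 1 := by linarith only [hJ]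
  have h2 : I = I / (J + 1) * (J + 1) := by field_simp
  generalize I / (J + 1) = τ at h1 h2
  subst h2
  have h3 : τ ^ 2 ≤ 0 := by nlinarith only [h1, hJ, sq_nonneg τ, mul_nonneg hJ (sq_nonneg τ)]
  have h4 : τ = 0 := pow_eq_zero_iff (two_ne_zero) |>.1 (le_antisymm h3 (sq_nonneg τ))
  rw [h4, zero_mul]

theorem fo_row (hE : EQ_s) : FO_s := by
  intro μ t hL hP u φ hφ
  have hp := hL.prob
  have ht := hP.1
  have hf := fo_clin u
  have hc : Continuous fun a : ℂ => ip μ (lin u) (sf a) :=
    cpi μ (fo_unc (G := fun e => lin u e.2 * sf e.1 e.2) ((hf.comp continuous_snd).mul fo_csf))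
  have hw : Continuous fun a : ℂ => wf μ a :=
    cpi μ (fo_unc (G := fun e => sf e.1 e.2 * sf e.1 e.2) (fo_csf.mul fo_csf))
  have hW : Continuous fun a : ℂ => max (wf μ a) t := hw.max continuous_const
  have hW0 : ∀ a : ℂ, max (wf μ a) t ≠ 0 := fun a => (ht.trans_le (le_max_right _ _)).ne'
  have hq : Continuous fun a : ℂ => ip μ (lin u) (sf a) / max (wf μ a) t := hc.div hW hW0
  let F : ℂ × ℂ → ℝ := fun e => lin u e.2
  let H : ℂ × ℂ → ℝ := fun e => ip μ (lin u) (sf e.1) / max (wf μ e.1) t * sf e.1 e.2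
  let Φ : ℂ × ℂ → ℝ := fun e => φ (e.1, rho e.1 e.2)
  have cF : Continuous F := hf.comp continuous_snd
  have cH : Continuous H := (hq.comp continuous_fst).mul fo_csf
  have cΦ : Continuous Φ := hφ.comp (continuous_fst.prodMk fo_crho)
  have cFH : Continuous fun e => F e * H e := cF.mul cH
  have cFΦ : Continuous fun e => F e * Φ e := cF.mul cΦ
  have cHH : Continuous fun e => H e * H e := cH.mul cH
  have cHΦ : Continuous fun e => H e * Φ e := cH.mul cΦ
  have cΦΦ : Continuous fun e => Φ e * Φ e := cΦ.mul cΦ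
  have e1 : fo_I μ (fun e => F e * H e) = Pq μ t u := by
    unfold fo_I Pq
    refine integral_congr_ae (Eventually.of_forall fun a => ?_)
    have h1 : ∀ b : B, F (a, b) * H (a, b) =
        ip μ (lin u) (sf a) / max (wf μ a) t * (lin u b * sf a b) := fun b => by
      show lin u b * (ip μ (lin u) (sf a) / max (wf μ a) t * sf a b) = _
      ring
    show ∫ b : B, F (a, b) * H (a, b) ∂μ = ip μ (lin u) (sf a) ^ 2 / max (wf μ a) t
    simp only [h1]
    rw [integral_const_mul]
    show _ * ip μ (lin u) (sf a) = _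
    ring
  have e2 : fo_I μ (fun e => H e * H e) = Pq μ t u := by
    unfold fo_I Pq
    refine integral_congr_ae ?_
    filter_upwards [Measure.support_mem_ae (μ := μ)] with a ha
    have h1 : ∀ b : B, H (a, b) * H (a, b) =
        (ip μ (lin u) (sf a) / max (wf μ a) t) ^ 2 * (sf a b * sf a b) := fun b => by
      show ip μ (lin u) (sf a) / max (wf μ a) t * sf a b *
        (ip μ (lin u) (sf a) / max (wf μ a) t * sf a b) = _
      ring
    simp only [h1]
    rw [integral_const_mul]
    have h2 := hW0 a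
    have h3 : max (wf μ a) t = wf μ a := max_eq_left (hP.2 a ha)
    show _ * wf μ a = _
    rw [h3] at h2 ⊢
    field_simp
  have e3 : ∫ b : B, lin u b ^ 2 ∂μ = ip μ (lin u) (lin u) := by
    unfold ip
    simp only [sq]
  have hJ : 0 ≤ fo_I μ fun e => Φ e * Φ e :=
    integral_nonneg fun a => integral_nonneg fun b => mul_self_nonneg _
  have main : fo_I μ (fun e => F e * Φ e) + (-1) * fo_I μ (fun e => H e * Φ e) = 0 := by
    refine fo_zero hJ fun τ => ?_
    have k := hL.key (lin u) (fun p => ip μ (lin u) (sf p.1) / max (wf μ p.1) t *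
      (p.2 - (1 + ‖p.1‖ ^ 2)) + τ * φ p) hf
      (((hq.comp continuous_fst).mul (by fun_prop)).add (continuous_const.mul hφ)) (fo_mean hL u)
    have k1 : (∫ a : B, ∫ b : B, lin u b * (ip μ (lin u) (sf a) / max (wf μ a) t *
        (rho a b - (1 + ‖(a : ℂ)‖ ^ 2)) + τ * φ (a, rho a b)) ∂μ ∂μ) =
        fo_I μ (fun e => F e * H e + τ * (F e * Φ e)) := by
      unfold fo_I
      refine integral_congr_ae (Eventually.of_forall fun a =>
        integral_congr_ae (Eventually.of_forall fun b => ?_))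
      show _ = lin u b * (ip μ (lin u) (sf a) / max (wf μ a) t * (rho a b - (1 + ‖(a : ℂ)‖ ^ 2))) +
        τ * (lin u b * φ (a, rho a b))
      ring
    have k2 : (∫ a : B, ∫ b : B, (ip μ (lin u) (sf a) / max (wf μ a) t *
        (rho a b - (1 + ‖(a : ℂ)‖ ^ 2)) + τ * φ (a, rho a b)) ^ 2 ∂μ ∂μ) =
        fo_I μ (fun e => (H e * H e + 2 * τ * (H e * Φ e)) + τ ^ 2 * (Φ e * Φ e)) := by
      unfold fo_I
      refine integral_congr_ae (Eventually.of_forall fun a =>
        integral_congr_ae (Eventually.of_forall fun b => ?_))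
      show (H (a, b) + τ * Φ (a, b)) ^ 2 = _
      ring
    have cS : Continuous fun e => H e * H e + 2 * τ * (H e * Φ e) :=
      cHH.add (continuous_const.mul cHΦ)
    rw [fo_lin μ cFH cFΦ, e1] at k1
    rw [fo_lin μ cS cΦΦ, fo_lin μ cHH cHΦ, e2] at k2
    have k3 := hE μ t hL hP u
    simp only at k
    rw [k1, k2, e3, ← k3] at k
    linarith only [k]
  rw [← fo_lin μ cFΦ cHΦ] at main
  refine Eq.trans ?_ main
  unfold fo_I
  refine integral_congr_ae (Eventually.of_forall fun a =>
    integral_congr_ae (Eventually.of_forall fun b => ?_))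
  show (lin u b - ip μ (lin u) (sf a) * sf a b / max (wf μ a) t) * φ (a, rho a b) =
    lin u b * φ (a, rho a b) +
      (-1) * (ip μ (lin u) (sf a) / max (wf μ a) t * sf a b * φ (a, rho a b))
  ring

end Pool.Agent.T53
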