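import Pool.Agent.MP_e70dc0_co.T53.Defs

namespace Pool.Agent.T53

open Finset Filter Topology MeasureTheory

theorem keyf_row (hA : APP_s) : KEYF_s := by
  intro Q K ε M f h hK h0 h1 hf hh
  have mul : ∀ x y : ℝ, |x| ≤ M → |y| ≤ M → |x * y| ≤ M ^ 2 := fun x y hx hy => by
    rw [abs_mul, sq]
    exact mul_le_mul hx hy (abs_nonneg _) ((abs_nonneg _).trans hx)
  have A1 := fun i => abs_le.1 (hA Q K ε (M ^ 2) i (fun e => f e.2 ^ 2) hK h0 h1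
    fun x _ y hy => by rw [sq (f _)]; exact mul _ _ (hf y hy) (hf y hy))
  have A2 := fun i => abs_le.1 (hA Q K ε (M ^ 2) i (fun e => f e.1 * f e.2) hK h0 h1
    fun x hx y hy => mul _ _ (hf x hx) (hf y hy))
  have A3 := fun i => abs_le.1 (hA Q K ε (M ^ 2) i (fun e => f e.2 * h (e.1, rho e.1 e.2)) hK h0 h1
    fun x hx y hy => mul _ _ (hf y hy) (hh x hx y hy))
  have A4 := fun i => abs_le.1 (hA Q K ε (M ^ 2) i (fun e => h (e.1, rho e.1 e.2) ^ 2) hK h0 h1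
    fun x hx y hy => by rw [sq (h _)]; exact mul _ _ (hh x hx y hy) (hh x hx y hy))
  obtain ⟨p, hp⟩ : ∃ p : ℂ × ℂ → ℝ, p = fun e => f e.2 ^ 2 := ⟨_, rfl⟩
  obtain ⟨q, hq⟩ : ∃ q : ℂ × ℂ → ℝ, q = fun e => f e.1 * f e.2 := ⟨_, rfl⟩
  obtain ⟨r, hr⟩ : ∃ r : ℂ × ℂ → ℝ, r = fun e => f e.2 * h (e.1, rho e.1 e.2) := ⟨_, rfl⟩
  obtain ⟨s, hs⟩ : ∃ s : ℂ × ℂ → ℝ, s = fun e => h (e.1, rho e.1 e.2) ^ 2 := ⟨_, rfl⟩
  have key : 0 ≤ ∑ k ∈ K, (p (pr 0 k) + p (pr 2 k) + p (pr 3 k) +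
      2 * q (pr 4 k) + 2 * q (pr 5 k) + 2 * q (pr 1 k) - 6 * r (pr 0 k) - 6 * r (pr 2 k) -
      6 * r (pr 3 k) + 9 * s (pr 0 k)) := sum_nonneg fun k hk => by
    obtain ⟨-, -, c1, c2⟩ := hK.kite k hk
    rw [dist_eq_norm, dist_eq_norm] at c1 c2
    have e1 : rho k.1 k.2.2.1 = rho k.1 k.2.1 := by rw [rho, rho, c2]
    have e2 : rho k.1 k.2.2.2 = rho k.1 k.2.1 := by rw [rho, rho, c2, c1]
    rw [hp, hq, hr, hs]
    change 0 ≤ f k.2.1 ^ 2 + f k.2.2.1 ^ 2 + f k.2.2.2 ^ 2 + 2 * (f k.2.1 * f k.2.2.1) +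
      2 * (f k.2.1 * f k.2.2.2) + 2 * (f k.2.2.1 * f k.2.2.2) -
      6 * (f k.2.1 * h (k.1, rho k.1 k.2.1)) - 6 * (f k.2.2.1 * h (k.1, rho k.1 k.2.2.1)) -
      6 * (f k.2.2.2 * h (k.1, rho k.1 k.2.2.2)) + 9 * h (k.1, rho k.1 k.2.1) ^ 2
    rw [e1, e2]
    linarith [sq_nonneg (f k.2.1 + f k.2.2.1 + f k.2.2.2 - 3 * h (k.1, rho k.1 k.2.1))]
  have key2 := div_nonneg key (Nat.cast_nonneg (α := ℝ) #K)
  simp only [sum_add_distrib, sum_sub_distrib, ← mul_sum, add_div, sub_div, mul_div_assoc] at key2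
  subst hp hq hr hs
  unfold av
  linarith [(A1 0).2, (A1 2).2, (A1 3).2, (A2 4).2, (A2 5).2, (A2 1).2, (A3 0).1, (A3 2).1,
    (A3 3).1, (A4 0).2]

end Pool.Agent.T53
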