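import Pool.Agent.MP_e70dc0_co.T53.Defs

namespace Pool.Agent.T53

open Finset Filter Topology MeasureTheory

/-- The uniform measure on a finite subset of the disc. -/
theorem lima_unif (Q : Finset ℂ) (hne : Q.Nonempty) (hQ : ∀ x ∈ Q, ‖x‖ ≤ 36) :
    ∃ ν : ProbabilityMeasure B, ∀ g : ℂ → ℝ,
      ∫ b : B, g b ∂(ν : Measure B) = (∑ x ∈ Q, g x) / #Q := by
  let i : Q → B := fun x => ⟨x, mem_closedBall_zero_iff.2 (hQ x x.2)⟩
  have h0 : ((#Q : ℕ) : ENNReal) ≠ 0 := Nat.cast_ne_zero.2 hne.card_pos.ne'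
  refine ⟨⟨((#Q : ℕ) : ENNReal)⁻¹ • ∑ x ∈ Q.attach, Measure.dirac (i x), ⟨?_⟩⟩, fun g => ?_⟩
  · rw [Measure.smul_apply, Measure.coe_finsetSum, Finset.sum_apply]
    simp only [measure_univ, sum_const, card_attach, nsmul_eq_mul, mul_one, smul_eq_mul]
    exact ENNReal.inv_mul_cancel h0 (ENNReal.natCast_ne_top _)
  · rw [ProbabilityMeasure.coe_mk, integral_smul_measure,
      integral_finsetSum_measure fun x _ => integrable_dirac (by simp)]
    simp only [integral_dirac]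
    rw [ENNReal.toReal_inv, ENNReal.toReal_natCast, smul_eq_mul, inv_mul_eq_div]
    exact congrArg (· / (#Q : ℝ)) (sum_attach Q g)

theorem lima_row : LIMA_s := by
  intro Q hne hQ
  choose ν hν using fun j => lima_unif (Q j) (hne j) (hQ j)
  obtain ⟨μ, -, hμ⟩ := isCompact_univ.ultrafilter_le_nhds ((hyperfilter ℕ).map ν) (by simp)
  have h1 : Tendsto ν (hyperfilter ℕ) (𝓝 μ) := hμ
  have h2 : Tendsto (fun j => (ν j).prod (ν j)) (hyperfilter ℕ) (𝓝 (μ.prod μ)) :=
    (ProbabilityMeasure.continuous_prod.tendsto (μ, μ)).comp (h1.prodMk_nhds h1)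
  refine ⟨μ, inferInstance, fun φ hφ => ?_⟩
  have hc : Continuous fun e : B × B => φ (e.1, e.2) := by fun_prop
  have hi : ∀ m : ProbabilityMeasure B, ∫ e : B × B, φ (e.1, e.2) ∂(m.prod m : Measure (B × B)) =
      ∫ a : B, ∫ b : B, φ (a, b) ∂(m : Measure B) ∂(m : Measure B) := fun m =>
    integral_prod _ (hc.integrable_of_hasCompactSupport (HasCompactSupport.of_compactSpace _))
  have h3 := ProbabilityMeasure.tendsto_iff_forall_integral_tendsto.1 h2
    (BoundedContinuousFunction.mkOfCompact ⟨_, hc⟩)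
  rw [← hi μ]
  refine Tendsto.congr (fun j => ?_) h3
  refine (hi (ν j)).trans ?_
  have h4 : ∀ a : B, ∫ b : B, φ (a, b) ∂(ν j : Measure B) = (∑ y ∈ Q j, φ (a, y)) / #(Q j) :=
    fun a => hν j fun y => φ (a, y)
  simp only [h4]
  rw [hν j fun x => (∑ y ∈ Q j, φ (x, y)) / #(Q j), av, sum_product, ← sum_div, div_div, sq]

end Pool.Agent.T53
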