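import Pool.Agent.MP_e70dc0_co.T53.Defs

namespace Pool.Agent.T53

open Finset Filter Topology MeasureTheory

theorem limb_snd (Q : Finset ℂ) (hQ : Q.Nonempty) (g : ℂ → ℝ) :
    av Q (fun e => g e.2) = (∑ x ∈ Q, g x) / #Q := by
  have h0 : (#Q : ℝ) ≠ 0 := by exact_mod_cast hQ.card_pos.ne'
  unfold av
  rw [Finset.sum_product]
  simp only [Finset.sum_const, nsmul_eq_mul]
  field_simp

theorem limb_bd (g : ℂ × ℂ → ℝ) (hg : Continuous g) :
    ∃ M : ℝ, ∀ x y : ℂ, ‖x‖ ≤ 36 → ‖y‖ ≤ 36 → |g (x, y)| ≤ M := by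
  have hc : IsCompact (Metric.closedBall (0 : ℂ) 36 ×ˢ Metric.closedBall (0 : ℂ) 36) :=
    (isCompact_closedBall _ _).prod (isCompact_closedBall _ _)
  obtain ⟨M, hM⟩ := hc.exists_bound_of_continuousOn hg.continuousOn
  refine ⟨M, fun x y hx hy => ?_⟩
  have h := hM (x, y) ⟨mem_closedBall_zero_iff.2 hx, mem_closedBall_zero_iff.2 hy⟩
  rwa [Real.norm_eq_abs] at h

theorem limb_row (hK : KEYF_s) (hA : LIMA_s) : LIMB_s := by
  intro Q K hN
  obtain ⟨μ, hμ, hT⟩ := hA Q (fun j => (hN j).ks.ne) (fun j => (hN j).sup)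
  have hc : ∀ j, (#(Q j) : ℝ) ≠ 0 := fun j => by exact_mod_cast (hN j).ks.ne.card_pos.ne'
  have one : ∀ g : ℂ → ℝ, Continuous g → Tendsto (fun j => av (Q j) (fun e => g e.2))
      (hyperfilter ℕ) (𝓝 (∫ b : B, g b ∂μ)) := fun g hg => by
    have h := hT (fun e => g e.2) (hg.comp continuous_snd)
    simpa only [integral_const, probReal_univ, one_smul] using h
  have cst : ∀ (g : ℂ → ℝ) (c : ℝ), Continuous g → (∀ j, (∑ x ∈ Q j, g x) / #(Q j) = c) →
      ∫ b : B, g b ∂μ = c := fun g c hg h => by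
    refine tendsto_nhds_unique (one g hg) ?_
    have e : (fun j => av (Q j) (fun e => g e.2)) = fun _ => c :=
      funext fun j => (limb_snd _ (hN j).ks.ne g).trans (h j)
    rw [e]
    exact tendsto_const_nhds
  refine ⟨μ, hμ, cst Complex.re 0 Complex.continuous_re fun j => ?_,
    cst Complex.im 0 Complex.continuous_im fun j => ?_,
    cst (fun x => ‖x‖ ^ 2) 1 (continuous_norm.pow 2) fun j => ?_, fun f h hf hh h0 => ?_⟩
  · rw [← Complex.re_sum, (hN j).mean, Complex.zero_re, zero_div]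
  · rw [← Complex.im_sum, (hN j).mean, Complex.zero_im, zero_div]
  · rw [(hN j).var, div_self (hc j)]
  · have hr : Continuous fun e : ℂ × ℂ => h (e.1, rho e.1 e.2) :=
      hh.comp (continuous_fst.prodMk ((continuous_fst.sub continuous_snd).norm.pow 2))
    obtain ⟨M1, h1⟩ := limb_bd (fun e => f e.1) (hf.comp continuous_fst)
    obtain ⟨M2, h2⟩ := limb_bd _ hr
    have t1 := one (fun x => f x ^ 2) (hf.pow 2)
    have t2 := hT (fun e => f e.1 * f e.2) ((hf.comp continuous_fst).mul (hf.comp continuous_snd))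
    have t3 := hT (fun e => f e.2 * h (e.1, rho e.1 e.2)) ((hf.comp continuous_snd).mul hr)
    have t4 := hT (fun e => h (e.1, rho e.1 e.2) ^ 2) (hr.pow 2)
    have t5 : Tendsto (fun j : ℕ => (1 : ℝ) / (j + 1)) (hyperfilter ℕ) (𝓝 0) :=
      tendsto_one_div_add_atTop_nhds_zero_nat.mono_left Nat.hyperfilter_le_atTop
    have z : ∫ a : B, ∫ b : B, f a * f b ∂μ ∂μ = 0 := by
      simp only [integral_const_mul, h0, mul_zero, integral_zero]
    have lim := ((((t1.const_mul 3).add (t2.const_mul 6)).sub (t3.const_mul 18)).add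
      (t4.const_mul 9)).add ((t5.const_mul 72).mul_const (max M1 M2 ^ 2))
    have ge := ge_of_tendsto' lim fun j => hK (Q j) (K j) (1 / (j + 1)) (max M1 M2) f h (hN j).ks
      (by positivity) (by
        rw [div_le_one (by positivity)]
        linarith [(Nat.cast_nonneg j : (0 : ℝ) ≤ j)])
      (fun x hx => (h1 x x ((hN j).sup x hx) ((hN j).sup x hx)).trans (le_max_left _ _))
      fun x hx y hy => (h2 x y ((hN j).sup x hx) ((hN j).sup y hy)).trans (le_max_right _ _)
    simp only at ge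
    rw [z] at ge
    linarith

end Pool.Agent.T53
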