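import Pool.Agent.MP_e70dc0_co.T53.Defs

namespace Pool.Agent.T53

open Finset Filter Topology MeasureTheory

theorem loc_row (hZ : ZS_s) : LOC_s := by
  intro μ _ F hF h a0 ha0
  by_contra hc
  obtain ⟨c, hcd⟩ : ∃ c : ℝ, c = F (a0, a0) := ⟨_, rfl⟩
  have hpos : 0 < c * F ((a0 : ℂ), (a0 : ℂ)) := by
    rw [hcd]
    exact mul_self_pos.2 hc
  have hcont : Continuous fun e : ℂ × ℂ => c * F e := continuous_const.mul hF
  obtain ⟨δ, hδ, hball⟩ : ∃ δ : ℝ, 0 < δ ∧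
      ∀ e : ℂ × ℂ, dist e ((a0 : ℂ), (a0 : ℂ)) < δ → 0 < c * F e := by
    have ho : IsOpen {e : ℂ × ℂ | 0 < c * F e} := isOpen_lt continuous_const hcont
    obtain ⟨δ, hδ, hb⟩ := Metric.isOpen_iff.1 ho _ hpos
    exact ⟨δ, hδ, fun e he => hb he⟩
  obtain ⟨d, hd⟩ : ∃ d : ℝ, d = δ / 2 := ⟨_, rfl⟩
  have hd0 : 0 < d := by rw [hd]; linarith
  obtain ⟨φ, hφd⟩ : ∃ φ : ℂ × ℝ → ℝ,
      φ = fun p => c * (max (d - ‖p.1 - (a0 : ℂ)‖) 0 * max (d ^ 2 - p.2) 0) := ⟨_, rfl⟩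
  have hφ : Continuous φ := by
    rw [hφd]
    fun_prop
  have hrho : Continuous fun p : ℂ × B => rho p.1 p.2 := by
    unfold rho
    fun_prop
  have hG : Continuous (Function.uncurry fun (a : ℂ) (b : B) => F (a, b) * φ (a, rho a b)) := by
    have h1 : Continuous fun p : ℂ × B => F (p.1, (p.2 : ℂ)) :=
      hF.comp (continuous_fst.prodMk (continuous_subtype_val.comp continuous_snd))
    have h2 : Continuous fun p : ℂ × B => φ (p.1, rho p.1 p.2) :=
      hφ.comp (continuous_fst.prodMk hrho)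
    exact h1.mul h2
  have hG0 : ∀ (a : ℂ) (b : B), 0 ≤ F (a, b) * φ (a, rho a b) := by
    intro a b
    rw [hφd]
    dsimp only
    rcases le_or_gt (d - ‖a - (a0 : ℂ)‖) 0 with h1 | h1
    · rw [max_eq_right h1]
      simp
    rcases le_or_gt (d ^ 2 - rho a b) 0 with h2 | h2
    · rw [max_eq_right h2]
      simp
    have h3 : ‖a - (b : ℂ)‖ < d := by
      unfold rho at h2
      exact lt_of_pow_lt_pow_left₀ 2 hd0.le (by linarith)
    have h4 : dist (a, (b : ℂ)) ((a0 : ℂ), (a0 : ℂ)) < δ := by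
      rw [Prod.dist_eq, max_lt_iff, dist_eq_norm, dist_eq_norm]
      have h5 : ‖(b : ℂ) - (a0 : ℂ)‖ ≤ ‖a - (b : ℂ)‖ + ‖a - (a0 : ℂ)‖ := by
        have e : (b : ℂ) - (a0 : ℂ) = -(a - (b : ℂ)) + (a - (a0 : ℂ)) := by ring
        rw [e]
        exact (norm_add_le _ _).trans (by rw [norm_neg])
      constructor
      · linarith
      · linarith
    have h6 := hball _ h4
    have h7 : 0 ≤ max (d - ‖a - (a0 : ℂ)‖) 0 * max (d ^ 2 - rho a b) 0 :=
      mul_nonneg (le_max_right _ _) (le_max_right _ _)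
    have e : F (a, b) * (c * (max (d - ‖a - (a0 : ℂ)‖) 0 * max (d ^ 2 - rho a b) 0)) =
        c * F (a, b) * (max (d - ‖a - (a0 : ℂ)‖) 0 * max (d ^ 2 - rho a b) 0) := by ring
    rw [e]
    exact mul_nonneg h6.le h7
  have h1 := hZ μ (fun a : B => ∫ b : B, F (a, b) * φ (a, rho a b) ∂μ)
    ((cpi μ hG).comp continuous_subtype_val) (fun a => integral_nonneg fun b => hG0 a b)
    (h φ hφ) a0 ha0
  have h2 := hZ μ (fun b : B => F (a0, b) * φ (a0, rho a0 b))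
    (hG.comp (Continuous.prodMk_right (a0 : ℂ))) (hG0 a0) h1 a0 ha0
  rw [hφd] at h2
  have e1 : rho (a0 : ℂ) a0 = 0 := by simp [rho]
  simp only [e1, sub_self, norm_zero, sub_zero] at h2
  rw [max_eq_left hd0.le, max_eq_left (sq_nonneg d)] at h2
  have h8 : 0 < c * F ((a0 : ℂ), (a0 : ℂ)) * (d * d ^ 2) := by positivity
  nlinarith [h8, h2]

end Pool.Agent.T53
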