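import Pool.Agent.MP_e70dc0_co.T53.Defs

namespace Pool.Agent.T53

open Finset Filter Topology

theorem norm_two {Q : Finset ℂ} {K : Finset K4} {ε : ℝ} (h : KS Q K ε) (he : ε < 2) :
    ∃ x ∈ Q, ∃ y ∈ Q, x ≠ y := by
  have hq : (0 : ℝ) < #Q := by exact_mod_cast h.ne.card_pos
  have hk : (0 : ℝ) < #K := lt_of_lt_of_le (mul_pos (by linarith) (by positivity)) h.big
  obtain ⟨k, hk⟩ := card_pos.1 (by exact_mod_cast hk : 0 < #K)
  exact ⟨_, (h.mem k hk).1, _, (h.mem k hk).2.1, (h.kite k hk).1⟩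

theorem norm_cheb (Q : Finset ℂ) (m : ℂ) {σ : ℝ} (hσ : 0 < σ)
    (hv : ∑ x ∈ Q, ‖x - m‖ ^ 2 = σ ^ 2 * #Q) : 9 * (#{x ∈ Q | 3 * σ < dist x m} : ℝ) ≤ #Q := by
  have h1 : ∑ x ∈ Q with 3 * σ < dist x m, (9 * σ ^ 2) ≤
      ∑ x ∈ Q with 3 * σ < dist x m, ‖x - m‖ ^ 2 := sum_le_sum fun x hx => by
    have := (mem_filter.1 hx).2
    rw [dist_eq_norm] at this
    nlinarith
  have h2 : ∑ x ∈ Q with 3 * σ < dist x m, ‖x - m‖ ^ 2 ≤ ∑ x ∈ Q, ‖x - m‖ ^ 2 :=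
    sum_le_sum_of_subset_of_nonneg (filter_subset _ _) fun _ _ _ => by positivity
  rw [sum_const, nsmul_eq_mul] at h1
  have h3 : 0 < σ ^ 2 := by positivity
  refine le_of_mul_le_mul_left ?_ h3
  linarith

theorem norm_row (hT : TAIL_s) (hD : DISC_s) (hC : CUT_s) (hA : AFF_s) : NORM_s := by
  intro Q K ε h0 h1 h
  obtain ⟨x0, hx0, y0, hy0, hxy⟩ := norm_two h (by linarith)
  obtain ⟨z, L, hL, hz, hmin⟩ := hD Q (one_lt_card.2 ⟨x0, hx0, y0, hy0, hxy⟩)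
  have ht := hT Q K ε z L h hz
  have hq : (0 : ℝ) < #Q := by exact_mod_cast h.ne.card_pos
  unfold TT at ht
  rw [div_le_iff₀ hq] at ht
  obtain ⟨R, hR⟩ : ∃ R : Finset ℂ, R = {x ∈ Q | ¬3 * L < dist x z} := ⟨_, rfl⟩
  have hsp : (#{x ∈ Q | 3 * L < dist x z} : ℝ) + #R = #Q := by
    rw [hR]
    exact_mod_cast card_filter_add_card_filter_not (s := Q) fun x => 3 * L < dist x z
  have hr : (0 : ℝ) < #R := by nlinarith
  have hsub : R ⊆ Q := hR ▸ filter_subset _ _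
  obtain ⟨K', hK'⟩ := hC Q R K ε ε h hsub (card_pos.1 (by exact_mod_cast hr)) (by linarith)
  rw [show ε + 8 * ε = 9 * ε by ring] at hK'
  have hrc : ((#R : ℕ) : ℂ) ≠ 0 := by exact_mod_cast hr.ne'
  obtain ⟨m, hm⟩ : ∃ m : ℂ, ∑ x ∈ R, x = #R * m := ⟨(∑ x ∈ R, x) / #R, by field_simp⟩
  have hin : ∀ x ∈ R, ‖x - z‖ ≤ 3 * L := fun x hx => by
    rw [hR] at hx
    rw [← dist_eq_norm]
    exact not_lt.1 (mem_filter.1 hx).2
  have hmz : ‖m - z‖ ≤ 3 * L := by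
    have e : ((#R : ℕ) : ℂ) * (m - z) = ∑ x ∈ R, (x - z) := by
      rw [sum_sub_distrib, hm, sum_const, nsmul_eq_mul]; ring
    have e2 : ‖∑ x ∈ R, (x - z)‖ ≤ ∑ x ∈ R, 3 * L := (norm_sum_le _ _).trans (sum_le_sum hin)
    rw [← e, norm_mul, sum_const, nsmul_eq_mul, Complex.norm_natCast] at e2
    exact le_of_mul_le_mul_left e2 hr
  have hpos : 0 < ∑ x ∈ R, ‖x - m‖ ^ 2 := by
    obtain ⟨x, hx, y, hy, hne⟩ := norm_two hK' (by linarith)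
    refine sum_pos' (fun _ _ => by positivity) ?_
    by_cases hxm : x = m
    · exact ⟨y, hy, pow_pos (norm_pos_iff.2 (sub_ne_zero.2 fun e => hne (hxm.trans e.symm))) 2⟩
    · exact ⟨x, hx, pow_pos (norm_pos_iff.2 (sub_ne_zero.2 hxm)) 2⟩
  obtain ⟨σ, hσ, hv⟩ : ∃ σ : ℝ, 0 < σ ∧ ∑ x ∈ R, ‖x - m‖ ^ 2 = σ ^ 2 * #R :=
    ⟨√((∑ x ∈ R, ‖x - m‖ ^ 2) / #R), Real.sqrt_pos.2 (div_pos hpos hr), by
      rw [Real.sq_sqrt (div_pos hpos hr).le]; field_simp⟩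
  have hch := norm_cheb R m hσ hv
  have hL6 : L ≤ 2 * (3 * σ) := by
    refine hmin m _ ?_
    unfold TT
    rw [div_le_iff₀ hq]
    have hs : {x ∈ Q | 3 * σ < dist x m} ⊆
        {x ∈ Q | 3 * L < dist x z} ∪ {x ∈ R | 3 * σ < dist x m} := fun x hx => by
      rw [mem_filter] at hx
      by_cases hc : 3 * L < dist x z
      · exact mem_union_left _ (mem_filter.2 ⟨hx.1, hc⟩)
      · exact mem_union_right _ (mem_filter.2 ⟨hR ▸ mem_filter.2 ⟨hx.1, hc⟩, hx.2⟩)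
    have hs' : (#{x ∈ Q | 3 * σ < dist x m} : ℝ) ≤
        #{x ∈ Q | 3 * L < dist x z} + #{x ∈ R | 3 * σ < dist x m} := by
      exact_mod_cast (card_le_card hs).trans (card_union_le _ _)
    have hrq : (#R : ℝ) ≤ #Q := by exact_mod_cast card_le_card hsub
    nlinarith
  obtain ⟨K'', hK''⟩ := hA R K' (9 * ε) m σ hK' hσ
  have hσc : (σ : ℂ) ≠ 0 := by exact_mod_cast hσ.ne'
  have hinj : Set.InjOn (fun x : ℂ => (x - m) / (σ : ℂ)) R := fun x _ y _ e => by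
    have e' : (x - m) / (σ : ℂ) = (y - m) / (σ : ℂ) := e
    rw [div_left_inj' hσc] at e'
    exact sub_left_inj.1 e'
  have hn : ∀ x : ℂ, ‖(x - m) / (σ : ℂ)‖ = ‖x - m‖ / σ := fun x => by
    rw [norm_div, Complex.norm_real, Real.norm_of_nonneg hσ.le]
  refine ⟨_, K'', hK'', ?_, ?_, fun y hy => ?_⟩
  · rw [sum_image hinj, ← sum_div, sum_sub_distrib, hm, sum_const, nsmul_eq_mul, sub_self,
      zero_div]
  · rw [sum_image hinj, card_image_of_injOn hinj]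
    simp only [hn, div_pow]
    rw [← sum_div, hv]
    field_simp
  · obtain ⟨x, hx, rfl⟩ := mem_image.1 hy
    rw [hn, div_le_iff₀ hσ]
    have e : x - m = (x - z) - (m - z) := by ring
    have := norm_sub_le (x - z) (m - z)
    rw [← e] at this
    linarith [hin x hx]

end Pool.Agent.T53
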