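import Pool.Agent.MP_e70dc0_co.T53.Defs

namespace Pool.Agent.T53

open Finset Filter Topology MeasureTheory

theorem ort_null (H : LinearMap.BilinForm ℝ (Fin 3 → ℝ)) (hs : ∀ u v, H u v = H v u)
    (hp : ∀ u, 0 ≤ H u u) (x : Fin 3 → ℝ) (hx : H x x = 0) (y : Fin 3 → ℝ) : H x y = 0 := by
  have key : ∀ t : ℝ, 0 ≤ 2 * t * H x y + H y y := by
    intro t
    have h := hp (t • x + y)
    simp only [map_add, map_smul, LinearMap.add_apply, LinearMap.smul_apply, smul_eq_mul] at h
    rw [hx, hs y x] at h
    linarith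
  by_contra hne
  have h := key (-(H y y + 1) / (2 * H x y))
  have e : 2 * (-(H y y + 1) / (2 * H x y)) * H x y = -(H y y + 1) := by
    field_simp
  rw [e] at h
  linarith

theorem ort_row : ORT_s := by
  intro G hG
  have h2 : Invertible (2 : ℝ) := invertibleOfNonzero two_ne_zero
  obtain ⟨v, hv⟩ := LinearMap.BilinForm.exists_orthogonal_basis (K := ℝ) (B := G)
    ⟨fun x y => hG x y⟩
  have h3 : Module.finrank ℝ (Fin 3 → ℝ) = 3 := by simp
  let b : Module.Basis (Fin 3) ℝ (Fin 3 → ℝ) := v.reindex (finCongr h3)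
  have hb : ∀ i j, i ≠ j → G (b i) (b j) = 0 := by
    intro i j hij
    simp only [b, Module.Basis.reindex_apply]
    exact hv fun h => hij ((finCongr h3).symm.injective h)
  have hl : ∀ (H : LinearMap.BilinForm ℝ (Fin 3 → ℝ)) (l y : Fin 3 → ℝ),
      H l y = ∑ k, b.repr l k * H (b k) y := by
    intro H l y
    conv_lhs => rw [← b.sum_repr l]
    simp only [map_sum, map_smul, LinearMap.sum_apply, LinearMap.smul_apply, smul_eq_mul]
  refine ⟨fun k => b k, fun l => ?_, fun H hs hp h0 u => ?_⟩
  · have hk : ∀ k, G (b k) l = b.repr l k * G (b k) (b k) := by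
      intro k
      rw [hG, hl G l (b k)]
      exact Finset.sum_eq_single k (fun j _ hj => by rw [hb j k hj, mul_zero])
        (fun h => absurd (Finset.mem_univ k) h)
    rw [hl G l l]
    refine Finset.sum_congr rfl fun k _ => ?_
    rw [hk k]
    by_cases h : G (b k) (b k) = 0
    · simp [h]
    · field_simp
  · rw [hl H u u]
    exact Finset.sum_eq_zero fun k _ => by rw [ort_null H hs hp (b k) (h0 k) u, mul_zero]

end Pool.Agent.T53
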