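import Pool.Agent.MP_e70dc0_co.T53.Defs

namespace Pool.Agent.T53

open Finset Filter Topology MeasureTheory

theorem pos_cont : Continuous fun p : ℂ × B => sf p.1 p.2 * sf p.1 p.2 := by
  have h : Continuous fun p : ℂ × B => sf p.1 p.2 := by
    unfold sf rho
    fun_prop
  exact h.mul h

theorem pos_row (hZ : ZS_s) : POS_s := by
  intro μ hμ
  have hc : Continuous fun a : ℂ => wf μ a :=
    cpi μ (F := fun a b => sf a b * sf a b) pos_cont
  have hc' : Continuous fun a : B => wf μ a := hc.comp continuous_subtype_val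
  have hp : ∀ a ∈ μ.support, 0 < wf μ a := by
    intro a ha
    have h0 : 0 ≤ wf μ a := integral_nonneg fun b => mul_self_nonneg _
    refine h0.lt_of_ne fun h => ?_
    have hg : Continuous fun b : B => sf a b * sf a b :=
      pos_cont.comp (continuous_const.prodMk continuous_id)
    have h1 := hZ μ (fun b : B => sf a b * sf a b) hg (fun b => mul_self_nonneg _) h.symm a ha
    have h2 : sf a a = -(1 + ‖(a : ℂ)‖ ^ 2) := by simp [sf, rho]
    have h3 : (0 : ℝ) < 1 + ‖(a : ℂ)‖ ^ 2 := by positivity
    simp only [h2] at h1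
    nlinarith
  have hK : IsCompact μ.support := Measure.isClosed_support.isCompact
  rcases μ.support.eq_empty_or_nonempty with he | hne
  · exact ⟨1, one_pos, fun a ha => by rw [he] at ha; exact absurd ha (Set.notMem_empty a)⟩
  · obtain ⟨a₀, ha₀, hmin⟩ := hK.exists_isMinOn hne hc'.continuousOn
    exact ⟨wf μ a₀, hp a₀ ha₀, fun a ha => hmin ha⟩

end Pool.Agent.T53
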