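import Pool.Agent.MP_e70dc0_co.T53.Defs

namespace Pool.Agent.T53

open Finset Filter Topology

theorem nol_row (hL : LIMB_s) (hP : POS_s) (hF : FIN_s) : NOL_s := by
  intro Q K h
  obtain ⟨μ, hμ⟩ := hL Q K h
  obtain ⟨t, ht⟩ := hP μ hμ.prob
  exact hF μ t hμ ht

theorem top_mono {Q : Finset ℂ} {K : Finset K4} {ε ε' : ℝ} (h : NS ε Q K) (hε : ε ≤ ε') :
    NS ε' Q K :=
  ⟨⟨h.ks.ne, h.ks.mem, h.ks.kite, h.ks.fib,
    le_trans (mul_le_mul_of_nonneg_right (by linarith) (by positivity)) h.ks.big⟩,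
    h.mean, h.var, h.sup⟩

theorem top_row (hF : FIB_s) (hC : CNT_s) (hN : NORM_s) (hO : NOL_s) : TOP_s := by
  classical
  by_contra hc
  have key : ∀ j : ℕ, ∃ (Q : Finset ℂ) (K : Finset K4), NS (1 / (j + 1)) Q K := by
    intro j
    have hj : (0 : ℝ) < j + 1 := by positivity
    by_contra hne
    refine hc ⟨1 / (960 * (j + 1)), by positivity, 360 * (j + 1), fun P hP hG => ?_⟩
    by_contra hlt
    have h1 := hC P _ hG (not_lt.1 hlt)
    have hn : (360 * (j + 1) : ℝ) ≤ #P := by exact_mod_cast hP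
    have hn0 : (0 : ℝ) < #P := by linarith
    have hks : KS P (KT P) (1 / (10 * (j + 1))) := by
      refine ⟨card_pos.1 (by exact_mod_cast hn0), fun k hk => ?_, fun k hk => ?_, hF P hG, ?_⟩
      · have := (mem_filter.1 hk).1
        simp only [mem_product] at this
        exact this
      · exact (mem_filter.1 hk).2.1
      · refine le_trans ?_ h1
        have e1 : (48 : ℝ) * (1 / (960 * (j + 1))) = 1 / (20 * (j + 1)) := by
          field_simp; norm_num
        have e2 : (1 : ℝ) / (10 * (j + 1)) = 1 / (20 * (j + 1)) + 1 / (20 * (j + 1)) := by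
          field_simp; norm_num
        have e3 : 18 ≤ 1 / (20 * (j + 1)) * (#P : ℝ) := by
          rw [div_mul_eq_mul_div, le_div_iff₀ (by positivity)]; linarith
        rw [e1, e2]
        nlinarith [mul_le_mul_of_nonneg_right e3 hn0.le]
    obtain ⟨Q', K', h2⟩ := hN P (KT P) _ (by positivity) (by
      rw [div_le_div_iff₀ (by positivity) (by norm_num)]
      have : (0 : ℝ) ≤ j := Nat.cast_nonneg j
      linarith) hks
    refine hne ⟨Q', K', top_mono h2 ?_⟩
    rw [mul_one_div, div_le_div_iff₀ (by positivity) hj]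
    linarith
  choose Q K h using key
  exact hO Q K h

end Pool.Agent.T53
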