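import Pool.Agent.MP_e70dc0_co.T53.Defs

namespace Pool.Agent.T53

open Finset Filter Topology MeasureTheory

theorem up_lin (u : Fin 3 → ℝ) : Continuous (lin u) := by
  unfold lin; fun_prop

theorem up_sf : Continuous fun e : ℂ × B => sf e.1 e.2 := by
  unfold sf rho; fun_prop

theorem up_ip (μ : Measure B) [IsFiniteMeasure μ] (u : Fin 3 → ℝ) :
    Continuous fun a : ℂ => ip μ (lin u) (sf a) :=
  cpi μ (F := fun a b => lin u b * sf a b)
    (((up_lin u).comp (continuous_subtype_val.comp continuous_snd)).mul up_sf)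

theorem up_wf (μ : Measure B) [IsFiniteMeasure μ] : Continuous (wf μ) :=
  cpi μ (F := fun a b => sf a b * sf a b) (up_sf.mul up_sf)

theorem up_mean {μ : Measure B} (h : LM μ) (u : Fin 3 → ℝ) : ∫ b : B, lin u b ∂μ = 0 := by
  have := h.prob
  have i1 : Integrable (fun b : B => u 0 * (b : ℂ).re) μ := cint μ (by fun_prop)
  have i2 : Integrable (fun b : B => u 1 * (b : ℂ).im) μ := cint μ (by fun_prop)
  have i3 : Integrable (fun b : B => u 2 * (‖(b : ℂ)‖ ^ 2 - 1)) μ := cint μ (by fun_prop)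
  have i4 : Integrable (fun b : B => ‖(b : ℂ)‖ ^ 2) μ := cint μ (by fun_prop)
  have i5 : Integrable (fun b : B => u 0 * (b : ℂ).re + u 1 * (b : ℂ).im) μ := i1.add i2
  unfold lin
  rw [integral_add i5 i3, integral_add i1 i2, integral_const_mul, integral_const_mul,
    integral_const_mul, integral_sub i4 (integrable_const _), h.mre, h.mim, h.var]
  simp

theorem up_row : UP_s := by
  intro μ t h hP u
  have := h.prob
  have m0 : ∀ a : ℂ, 0 < max (wf μ a) t := fun a => lt_max_of_lt_right hP.1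
  have cm : Continuous fun a : ℂ => max (wf μ a) t := (up_wf μ).max continuous_const
  have cq : Continuous fun a : ℂ => ip μ (lin u) (sf a) / max (wf μ a) t :=
    (up_ip μ u).div cm fun a => (m0 a).ne'
  have k := h.key (lin u) (fun e => ip μ (lin u) (sf e.1) / max (wf μ e.1) t *
    (e.2 - (1 + ‖e.1‖ ^ 2))) (up_lin u) ((cq.comp continuous_fst).mul (by fun_prop)) (up_mean h u)
  have e1 : ∀ a : B, ∫ b : B, lin u b * (ip μ (lin u) (sf a) / max (wf μ a) t *
      (rho a b - (1 + ‖(a : ℂ)‖ ^ 2))) ∂μ = ip μ (lin u) (sf a) ^ 2 / max (wf μ a) t := fun a => by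
    have e : ∀ b : B, lin u b * (ip μ (lin u) (sf a) / max (wf μ a) t *
        (rho a b - (1 + ‖(a : ℂ)‖ ^ 2))) =
        ip μ (lin u) (sf a) / max (wf μ a) t * (lin u b * sf a b) := fun b => by
      rw [sf]; ring
    simp only [e]
    rw [integral_const_mul]
    change _ * ip μ (lin u) (sf a) = _
    ring
  have e2 : ∀ a : B, ∫ b : B, (ip μ (lin u) (sf a) / max (wf μ a) t *
      (rho a b - (1 + ‖(a : ℂ)‖ ^ 2))) ^ 2 ∂μ =
      (ip μ (lin u) (sf a) / max (wf μ a) t) ^ 2 * wf μ a := fun a => by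
    have e : ∀ b : B, (ip μ (lin u) (sf a) / max (wf μ a) t *
        (rho a b - (1 + ‖(a : ℂ)‖ ^ 2))) ^ 2 =
        (ip μ (lin u) (sf a) / max (wf μ a) t) ^ 2 * (sf a b * sf a b) := fun b => by
      rw [sf]; ring
    simp only [e]
    rw [integral_const_mul]
    rfl
  simp only [e1, e2] at k
  have le : ∫ a : B, (ip μ (lin u) (sf a) / max (wf μ a) t) ^ 2 * wf μ a ∂μ ≤ Pq μ t u := by
    refine integral_mono (cint μ (((cq.pow 2).mul (up_wf μ)).comp continuous_subtype_val))
      (cint μ ((((up_ip μ u).pow 2).div cm fun a => (m0 a).ne').comp continuous_subtype_val))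
      fun a => ?_
    have h1 : (ip μ (lin u) (sf a) / max (wf μ a) t) ^ 2 * wf μ a ≤
        (ip μ (lin u) (sf a) / max (wf μ a) t) ^ 2 * max (wf μ a) t :=
      mul_le_mul_of_nonneg_left (le_max_left _ _) (sq_nonneg _)
    refine h1.trans (le_of_eq ?_)
    have := (m0 a).ne'
    field_simp
  have e3 : ip μ (lin u) (lin u) = ∫ b : B, lin u b ^ 2 ∂μ := by
    simp only [ip, sq]
  rw [e3]
  change 2 * Pq μ t u - _ ≤ _ at k
  linarith

end Pool.Agent.T53
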