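import Pool.Agent.MP_e70dc0_co.T53.Defs

namespace Pool.Agent.T53

open Finset Filter Topology MeasureTheory

-- BEGIN
theorem zs_row : ZS_s := by
  intro μ _ g hg h0 hI a ha
  by_contra hne
  have h1 : g =ᵐ[μ] 0 := (integral_eq_zero_iff_of_nonneg (fun x => h0 x) (cint μ hg)).1 hI
  have h2 : {x | g x ≠ 0} ∈ 𝓝 a := hg.continuousAt.eventually_ne hne
  have h3 := (Measure.mem_support_iff_forall a).1 ha _ h2
  have h4 : μ {x | g x ≠ 0} = 0 := h1
  exact h3.ne' h4

end Pool.Agent.T53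

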