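import Pool.Agent.MP_e70dc0_co.T53.FIB
import Pool.Agent.MP_e70dc0_co.T53.CNT
import Pool.Agent.MP_e70dc0_co.T53.TAIL
import Pool.Agent.MP_e70dc0_co.T53.CUT
import Pool.Agent.MP_e70dc0_co.T53.AFF
import Pool.Agent.MP_e70dc0_co.T53.NORM
import Pool.Agent.MP_e70dc0_co.T53.APP
import Pool.Agent.MP_e70dc0_co.T53.KEYF
import Pool.Agent.MP_e70dc0_co.T53.LIMA
import Pool.Agent.MP_e70dc0_co.T53.LIMB
import Pool.Agent.MP_e70dc0_co.T53.ZS
import Pool.Agent.MP_e70dc0_co.T53.LOC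
import Pool.Agent.MP_e70dc0_co.T53.POS
import Pool.Agent.MP_e70dc0_co.T53.UP
import Pool.Agent.MP_e70dc0_co.T53.ORT
import Pool.Agent.MP_e70dc0_co.T53.EQ
import Pool.Agent.MP_e70dc0_co.T53.FO
import Pool.Agent.MP_e70dc0_co.T53.DG
import Pool.Agent.MP_e70dc0_co.T53.FIN
import Pool.Agent.MP_e70dc0_co.T53.TOP

namespace Pool.Agent.T53

theorem top : TOP_s :=
  top_row fib_row cnt_row (norm_row tail_row disc_row cut_row aff_row)
    (nol_row (limb_row (keyf_row app_row) lima_row) (pos_row zs_row)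
      (fin_row up_row (dg_row (fo_row (eq_row up_row ort_row)) (loc_row zs_row))))

end Pool.Agent.T53
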